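import Mathlib

/-!
# Quantile functions, uniformisation
-/

set_option autoImplicit false

namespace Pool.Agent.R190.KR

open MeasureTheory ProbabilityTheory Set Filter Topology

/-- The quantile function of a law on `ℝ`. -/
noncomputable def quantile (μ : Measure ℝ) (x : ℝ) : ℝ := sInf {t : ℝ | x ≤ cdf μ t}

section
variable (μ : Measure ℝ) [IsProbabilityMeasure μ]

theorem quantile_le_iff {x t : ℝ} (hx : x ∈ Ioo (0 : ℝ) 1) :
    quantile μ x ≤ t ↔ x ≤ cdf μ t := by
  have hne : {t : ℝ | x ≤ cdf μ t}.Nonempty := by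
    have h := (tendsto_cdf_atTop μ).eventually (lt_mem_nhds hx.2)
    obtain ⟨t, ht⟩ := h.exists
    exact ⟨t, ht.le⟩
  have hbdd : BddBelow {t : ℝ | x ≤ cdf μ t} := by
    have h := (tendsto_cdf_atBot μ).eventually (gt_mem_nhds hx.1)
    obtain ⟨b, hb⟩ := h.exists
    refine ⟨b, fun t ht => ?_⟩
    by_contra hlt
    push Not at hlt
    have h1 : cdf μ t ≤ cdf μ b := monotone_cdf μ hlt.le
    have h2 : x ≤ cdf μ t := ht
    linarith
  have hmem : x ≤ cdf μ (quantile μ x) := by
    have hrc : Tendsto (cdf μ) (𝓝[>] (quantile μ x)) (𝓝 (cdf μ (quantile μ x))) :=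
      ((cdf μ).right_continuous (quantile μ x)).mono_left (nhdsWithin_mono _ Ioi_subset_Ici_self)
    refine ge_of_tendsto hrc ?_
    filter_upwards [self_mem_nhdsWithin] with t ht
    obtain ⟨t', ht', hlt⟩ := (csInf_lt_iff hbdd hne).1 (show sInf {t : ℝ | x ≤ cdf μ t} < t from ht)
    exact le_trans ht' (monotone_cdf μ hlt.le)
  constructor
  · intro h
    exact hmem.trans (monotone_cdf μ h)
  · intro h
    exact csInf_le hbdd h

theorem monotoneOn_quantile : MonotoneOn (quantile μ) (Ioo 0 1) := by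
  intro x hx y hy hxy
  rw [quantile_le_iff μ hx]
  exact hxy.trans ((quantile_le_iff μ hy).1 le_rfl)

theorem aemeasurable_quantile : AEMeasurable (quantile μ) (volume.restrict (Ioo 0 1)) :=
  aemeasurable_restrict_of_monotoneOn measurableSet_Ioo (monotoneOn_quantile μ)

instance : IsProbabilityMeasure (volume.restrict (Ioo (0 : ℝ) 1)) :=
  ⟨by simp⟩

theorem map_quantile : (volume.restrict (Ioo (0 : ℝ) 1)).map (quantile μ) = μ := by
  have : IsProbabilityMeasure ((volume.restrict (Ioo (0 : ℝ) 1)).map (quantile μ)) :=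
    Measure.isProbabilityMeasure_map (aemeasurable_quantile μ)
  apply Measure.ext_of_Iic
  intro t
  rw [Measure.map_apply_of_aemeasurable (aemeasurable_quantile μ) measurableSet_Iic,
    Measure.restrict_apply' measurableSet_Ioo, ← ofReal_cdf]
  have h : quantile μ ⁻¹' Iic t ∩ Ioo 0 1 = {x | x ≤ cdf μ t} ∩ Ioo 0 1 := by
    ext x
    constructor
    · rintro ⟨h1, h2⟩
      exact ⟨(quantile_le_iff μ h2).1 h1, h2⟩
    · rintro ⟨h1, h2⟩
      exact ⟨(quantile_le_iff μ h2).2 h1, h2⟩
  rw [h]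
  have h0 := cdf_nonneg μ t
  rcases (cdf_le_one μ t).eq_or_lt with h1 | h1
  · rw [h1]
    have : {x : ℝ | x ≤ 1} ∩ Ioo 0 1 = Ioo 0 1 := by
      ext x
      simp only [mem_inter_iff, mem_ofPred_eq, mem_Ioo]
      constructor
      · rintro ⟨_, h⟩; exact h
      · rintro h; exact ⟨h.2.le, h⟩
    rw [this]; simp
  · have : {x : ℝ | x ≤ cdf μ t} ∩ Ioo 0 1 = Ioc 0 (cdf μ t) := by
      ext x
      simp only [mem_inter_iff, mem_ofPred_eq, mem_Ioo, mem_Ioc]
      constructor
      · rintro ⟨h2, h3, h4⟩; exact ⟨h3, h2⟩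
      · rintro ⟨h2, h3⟩; exact ⟨h3, h2, by linarith⟩
    rw [this]; simp

variable {μ}

theorem cdf_quantile (hc : Continuous (cdf μ)) {x : ℝ} (hx : x ∈ Ioo (0 : ℝ) 1) :
    cdf μ (quantile μ x) = x := by
  apply le_antisymm
  · have ht : Tendsto (cdf μ) (𝓝[<] (quantile μ x)) (𝓝 (cdf μ (quantile μ x))) :=
      (hc.tendsto _).mono_left nhdsWithin_le_nhds
    refine le_of_tendsto ht ?_
    filter_upwards [self_mem_nhdsWithin] with t ht
    by_contra h
    push Not at h
    have := (quantile_le_iff μ hx).2 h.le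
    exact absurd this (not_le.2 ht)
  · exact (quantile_le_iff μ hx).1 le_rfl

theorem map_cdf (hc : Continuous (cdf μ)) :
    μ.map (cdf μ) = volume.restrict (Ioo (0 : ℝ) 1) := by
  have h1 : ((volume.restrict (Ioo (0 : ℝ) 1)).map (quantile μ)).map (cdf μ) =
      (volume.restrict (Ioo (0 : ℝ) 1)).map (cdf μ ∘ quantile μ) :=
    AEMeasurable.map_map_of_aemeasurable hc.measurable.aemeasurable (aemeasurable_quantile μ)
  rw [map_quantile μ] at h1
  rw [h1]
  have h2 : (cdf μ ∘ quantile μ) =ᵐ[volume.restrict (Ioo (0 : ℝ) 1)] id := by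
    filter_upwards [ae_restrict_mem measurableSet_Ioo] with x hx
    exact cdf_quantile hc hx
  rw [Measure.map_congr h2, Measure.map_id]

theorem integral_comp_cdf (hc : Continuous (cdf μ)) {g : ℝ → ℝ} (hg : Measurable g) :
    ∫ t, g (cdf μ t) ∂μ = ∫ x in Ioo (0 : ℝ) 1, g x := by
  rw [← map_cdf hc, integral_map hc.measurable.aemeasurable hg.aestronglyMeasurable]

theorem integral_quantile (hc : Continuous (cdf μ)) {g : ℝ → ℝ} (hg : Measurable g) :
    ∫ x in Ioo (0 : ℝ) 1, quantile μ x * g x = ∫ t, t * g (cdf μ t) ∂μ := by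
  have hm : Measurable fun t : ℝ => t * g (cdf μ t) :=
    measurable_id.mul (hg.comp hc.measurable)
  have h := integral_map (μ := volume.restrict (Ioo (0 : ℝ) 1)) (φ := quantile μ)
    (aemeasurable_quantile μ) (f := fun t => t * g (cdf μ t)) hm.aestronglyMeasurable
  rw [map_quantile μ] at h
  rw [h]
  apply integral_congr_ae
  filter_upwards [ae_restrict_mem measurableSet_Ioo] with x hx
  rw [cdf_quantile hc hx]

theorem noAtoms_of_continuous_cdf (hc : Continuous (cdf μ)) (t : ℝ) : μ {t} = 0 := by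
  have h := StieltjesFunction.measure_singleton (cdf μ) t
  rw [measure_cdf μ,
    (monotone_cdf μ).continuousWithinAt_Iio_iff_leftLim_eq.1 hc.continuousWithinAt] at h
  rw [h]; simp

theorem continuous_cdf_of_noAtoms (h : ∀ t, μ {t} = 0) : Continuous (cdf μ) := by
  rw [continuous_iff_continuousAt]
  intro t
  rw [(monotone_cdf μ).continuousAt_iff_leftLim_eq_rightLim, (cdf μ).rightLim_eq]
  have h1 := StieltjesFunction.measure_singleton (cdf μ) t
  rw [measure_cdf μ, h t] at h1
  have h2 := ENNReal.ofReal_eq_zero.1 h1.symm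
  have h3 := (monotone_cdf μ).leftLim_le (le_refl t)
  linarith

theorem cdf_reflect (hc : Continuous (cdf μ)) {m : ℝ} (hs : μ.map (fun t => 2 * m - t) = μ)
    (t : ℝ) : cdf μ (2 * m - t) = 1 - cdf μ t := by
  have h1 : μ (Iic (2 * m - t)) = μ (Ici t) := by
    conv_lhs => rw [← hs]
    rw [Measure.map_apply (by fun_prop) measurableSet_Iic]
    congr 1
    ext x
    simp
  rw [cdf_eq_real, cdf_eq_real, Measure.real, h1, ← Measure.real]
  have h2 : μ.real (Iio t) = μ.real (Iic t) := by
    have h3 : Iic t = Iio t ∪ {t} := by ext x; simp [le_iff_lt_or_eq, or_comm]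
    rw [h3]
    apply le_antisymm
    · exact measureReal_mono subset_union_left
    · refine (measureReal_union_le _ _).trans ?_
      rw [Measure.real, Measure.real, noAtoms_of_continuous_cdf hc t]; simp
  rw [← h2, ← probReal_compl_eq_one_sub measurableSet_Iio, compl_Iio]

end

/-! ### symmetric parents -/

/-- the mean of a law -/
noncomputable def mean (μ : Measure ℝ) : ℝ := ∫ t, t ∂μ

/-- the standard deviation of a law -/
noncomputable def sd (μ : Measure ℝ) : ℝ := Real.sqrt (∫ t, (t - mean μ) ^ 2 ∂μ)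

/-- Law of a symmetric parent with continuous distribution function and finite
positive variance. -/
structure SymParent (μ : Measure ℝ) : Prop where
  prob : IsProbabilityMeasure μ
  cont : Continuous (cdf μ)
  sq : MemLp id 2 μ
  pos : 0 < sd μ
  symm : μ.map (fun t => 2 * mean μ - t) = μ

namespace SymParent

variable {μ : Measure ℝ}

theorem int_id (h : SymParent μ) : Integrable (fun t : ℝ => t) μ := by
  have := h.prob
  exact h.sq.integrable (by norm_num)

theorem int_sub (h : SymParent μ) : Integrable (fun t : ℝ => t - mean μ) μ := by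
  have := h.prob
  exact h.int_id.sub (integrable_const _)

theorem int_sq (h : SymParent μ) : Integrable (fun t : ℝ => (t - mean μ) ^ 2) μ := by
  have := h.prob
  exact (h.sq.sub (memLp_const (mean μ))).integrable_sq

theorem int_mul (h : SymParent μ) {g : ℝ → ℝ} (hg : Measurable g) {B : ℝ}
    (hB : ∀ x ∈ Icc (0 : ℝ) 1, |g x| ≤ B) :
    Integrable (fun t : ℝ => (t - mean μ) * g (cdf μ t)) μ := by
  have := h.prob
  apply h.int_sub.mul_bdd (c := B) (hg.comp h.cont.measurable).aestronglyMeasurable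
  exact Filter.Eventually.of_forall fun t => hB _ ⟨cdf_nonneg μ t, cdf_le_one μ t⟩

theorem int_comp (h : SymParent μ) {g : ℝ → ℝ} (hg : Measurable g) {B : ℝ}
    (hB : ∀ x ∈ Icc (0 : ℝ) 1, |g x| ≤ B) :
    Integrable (fun t : ℝ => g (cdf μ t)) μ := by
  have := h.prob
  apply Integrable.of_bound (C := B) (hg.comp h.cont.measurable).aestronglyMeasurable
  exact Filter.Eventually.of_forall fun t => hB _ ⟨cdf_nonneg μ t, cdf_le_one μ t⟩

theorem reflect (h : SymParent μ) (t : ℝ) : cdf μ (2 * mean μ - t) = 1 - cdf μ t := by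
  have := h.prob
  exact cdf_reflect h.cont h.symm t

theorem cdf_mean (h : SymParent μ) : cdf μ (mean μ) = 1 / 2 := by
  have := h.reflect (mean μ)
  rw [show 2 * mean μ - mean μ = mean μ by ring] at this
  linarith

theorem integral_reflect (h : SymParent μ) {g : ℝ → ℝ} (hg : Measurable g) :
    ∫ t, (t - mean μ) * g (cdf μ t) ∂μ = ∫ t, -((t - mean μ) * g (1 - cdf μ t)) ∂μ := by
  have := h.prob
  have hm : Measurable fun t : ℝ => (t - mean μ) * g (cdf μ t) :=
    (measurable_id.sub_const _).mul (hg.comp h.cont.measurable)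
  have h1 := integral_map (μ := μ) (φ := fun t => 2 * mean μ - t) (by fun_prop)
    (f := fun t => (t - mean μ) * g (cdf μ t)) hm.aestronglyMeasurable
  rw [h.symm] at h1
  rw [h1]
  congr 1
  funext t
  rw [h.reflect]
  ring

theorem integral_antisymm (h : SymParent μ) {g : ℝ → ℝ} (hg : Measurable g) {B : ℝ}
    (hB : ∀ x ∈ Icc (0 : ℝ) 1, |g x| ≤ B) :
    ∫ t, (t - mean μ) * g (cdf μ t) ∂μ =
      1 / 2 * ∫ t, (t - mean μ) * (g (cdf μ t) - g (1 - cdf μ t)) ∂μ := by
  have := h.prob
  have h1 := h.integral_reflect hg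
  have i1 := h.int_mul hg hB
  have i2 := h.int_mul (g := fun x => g (1 - x)) (hg.comp (by fun_prop)) (B := B)
    (fun x hx => hB _ ⟨by linarith [hx.2], by linarith [hx.1]⟩)
  have h2 : ∫ t, (t - mean μ) * (g (cdf μ t) - g (1 - cdf μ t)) ∂μ =
      (∫ t, (t - mean μ) * g (cdf μ t) ∂μ) - ∫ t, (t - mean μ) * g (1 - cdf μ t) ∂μ := by
    rw [← integral_sub i1 i2]
    congr 1
    funext t
    ring
  rw [h2]
  rw [integral_neg] at h1
  linarith

/-- the representation of the normalised mean -/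
theorem integral_id_mul (h : SymParent μ) {g : ℝ → ℝ} (hg : Measurable g) {B : ℝ}
    (hB : ∀ x ∈ Icc (0 : ℝ) 1, |g x| ≤ B) (h1 : ∫ x in Ioo (0 : ℝ) 1, g x = 1) :
    (∫ x in Ioo (0 : ℝ) 1, quantile μ x * g x) - mean μ =
      1 / 2 * ∫ t, (t - mean μ) * (g (cdf μ t) - g (1 - cdf μ t)) ∂μ := by
  have := h.prob
  rw [← h.integral_antisymm hg hB, integral_quantile h.cont hg]
  have h2 : ∫ t, t * g (cdf μ t) ∂μ =
      (∫ t, (t - mean μ) * g (cdf μ t) ∂μ) + ∫ t, mean μ * g (cdf μ t) ∂μ := by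
    rw [← integral_add (h.int_mul hg hB) ((h.int_comp hg hB).const_mul _)]
    congr 1
    funext t
    ring
  rw [h2, integral_const_mul, integral_comp_cdf h.cont hg, h1]
  ring

end SymParent

end Pool.Agent.R190.KR
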