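import Mathlib
import Pool.Agent.R190.KR.Quant

/-!
# `k`th record values from symmetric parents: definitions

`quantile`, `mean`, `sd` and `SymParent` are in `Pool.Agent.R190.KR.Quant`.
-/

set_option autoImplicit false

namespace Pool.Agent.R190.KR

open MeasureTheory ProbabilityTheory Set

/-- Density `f_n^{(k)}` on `(0,1)` of the `n`th value of the `k`th records of independent
uniform variables. -/
noncomputable def recDens (k n : ℕ) (x : ℝ) : ℝ :=
  (k : ℝ) ^ (n + 1) / n.factorial * (-Real.log (1 - x)) ^ n * (1 - x) ^ (k - 1)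

/-- The tail `1 - F_n^{(k)}` of that density in closed form. -/
noncomputable def recTail (k n : ℕ) (x : ℝ) : ℝ :=
  (1 - x) ^ k * ∑ j ∈ Finset.range (n + 1), (k * -Real.log (1 - x)) ^ j / j.factorial

/-- `E_F R_n^{(k)} = ∫_0^1 F⁻¹(x) f_n^{(k)}(x) dx`. -/
noncomputable def recMean (k n : ℕ) (μ : Measure ℝ) : ℝ :=
  ∫ x in (0 : ℝ)..1, quantile μ x * recDens k n x

/-- The values `(E_F R_n^{(k)} - μ_F) / σ_F` over all symmetric parents with continuous
distribution function and finite variance. `D^s(k,n)` is the supremum of this set. -/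
def stdMeans (k n : ℕ) : Set ℝ :=
  {r | ∃ μ : Measure ℝ, SymParent μ ∧ r = (recMean k n μ - mean μ) / sd μ}

/-- `s(x) = f_n^{(k)}(x) - f_n^{(k)}(1-x)`. -/
noncomputable def sfun (k n : ℕ) (x : ℝ) : ℝ := recDens k n x - recDens k n (1 - x)

/-- The cut point: `α ∈ (1/2,1)`, `s(α) > 0` and
`(1-α) s(α) = (1 - F_n^{(k)}(α)) - F_n^{(k)}(1-α)` (the right side is `∫_α^1 s`). -/
def IsCut (k n : ℕ) (α : ℝ) : Prop :=
  1 / 2 < α ∧ α < 1 ∧ 0 < sfun k n α ∧
    (1 - α) * sfun k n α = recTail k n α + recTail k n (1 - α) - 1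

end Pool.Agent.R190.KR
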