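import Mathlib

/-!
# Shape of the antisymmetrised density of kth records

`S x = a^n (1-x)^m - b^n x^m`, `a = -log (1-x)`, `b = -log x`.
-/

set_option autoImplicit false

namespace Pool.Agent.R190.KR

open Real Set

/-- `-log (1-x)` -/
noncomputable def A (x : ℝ) : ℝ := -Real.log (1 - x)

theorem A_pos {x : ℝ} (h0 : 0 < x) (h1 : x < 1) : 0 < A x := by
  unfold A
  have := Real.log_neg (x := 1 - x) (by linarith) (by linarith)
  linarith

theorem exp_neg_A {x : ℝ} (h1 : x < 1) : Real.exp (-A x) = 1 - x := by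
  unfold A
  rw [neg_neg, Real.exp_log (by linarith)]

theorem A_one_sub (x : ℝ) : A (1 - x) = -Real.log x := by
  unfold A; rw [sub_sub_cancel]

theorem hasDerivAt_A {x : ℝ} (h1 : x < 1) : HasDerivAt A (1 / (1 - x)) x := by
  have h : HasDerivAt (fun x : ℝ => Real.log (1 - x)) (-1 / (1 - x)) x :=
    ((hasDerivAt_id x).const_sub 1).log (by simp; linarith)
  have h2 : HasDerivAt (fun x : ℝ => -Real.log (1 - x)) (-(-1 / (1 - x))) x := h.fun_neg
  have h3 : A = fun x : ℝ => -Real.log (1 - x) := rfl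
  rw [h3]
  refine h2.congr_deriv ?_
  ring

/-- `A` at the reflected point -/
theorem hasDerivAt_A' {x : ℝ} (h0 : 0 < x) : HasDerivAt (fun x => A (1 - x)) (-(1 / x)) x := by
  have h := (hasDerivAt_A (x := 1 - x) (by linarith)).comp x ((hasDerivAt_id x).const_sub 1)
  simpa [Function.comp_def] using h

/-- `a^n (1-x)^m` -/
noncomputable def G (n m : ℕ) (x : ℝ) : ℝ := (A x) ^ n * (1 - x) ^ m

theorem G_pos (n m : ℕ) {x : ℝ} (h0 : 0 < x) (h1 : x < 1) : 0 < G n m x := by
  unfold G
  have := A_pos h0 h1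
  have : 0 < 1 - x := by linarith
  positivity

noncomputable def psi (n m : ℕ) (x : ℝ) : ℝ := (n / A x - m) / (1 - x)

theorem hasDerivAt_G (n m : ℕ) {x : ℝ} (h0 : 0 < x) (h1 : x < 1) :
    HasDerivAt (G n m) (G n m x * psi n m x) x := by
  have hA := A_pos h0 h1
  have hx : 0 < 1 - x := by linarith
  have h := ((hasDerivAt_A h1).pow n).mul ((((hasDerivAt_id x).const_sub 1)).pow m)
  refine h.congr_deriv ?_
  unfold G psi
  simp only [id_eq, Pi.pow_apply]
  rcases Nat.eq_zero_or_pos n with hn | hn <;> rcases Nat.eq_zero_or_pos m with hm | hm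
  · subst hn; subst hm; simp
  · subst hn
    obtain ⟨m, rfl⟩ : ∃ j, m = j + 1 := ⟨m - 1, by omega⟩
    simp only [Nat.add_sub_cancel]
    push_cast
    field_simp
    ring
  · subst hm
    obtain ⟨n, rfl⟩ : ∃ j, n = j + 1 := ⟨n - 1, by omega⟩
    simp only [Nat.add_sub_cancel]
    push_cast
    field_simp
    ring
  · obtain ⟨m, rfl⟩ : ∃ j, m = j + 1 := ⟨m - 1, by omega⟩
    obtain ⟨n, rfl⟩ : ∃ j, n = j + 1 := ⟨n - 1, by omega⟩
    simp only [Nat.add_sub_cancel]
    push_cast
    field_simp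
    ring

noncomputable def psi' (n m : ℕ) (x : ℝ) : ℝ := ((n / A x - m) - n / A x ^ 2) / (1 - x) ^ 2

theorem hasDerivAt_psi (n m : ℕ) {x : ℝ} (h0 : 0 < x) (h1 : x < 1) :
    HasDerivAt (psi n m) (psi' n m x) x := by
  have hA := A_pos h0 h1
  have hx : 0 < 1 - x := by linarith
  have h := ((((hasDerivAt_const x (n : ℝ)).div (hasDerivAt_A h1) hA.ne').sub_const (m : ℝ))).div
    ((hasDerivAt_id x).const_sub 1) (by simpa using hx.ne')
  refine h.congr_deriv ?_
  unfold psi'
  simp only [id_eq, Pi.div_apply]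
  field_simp
  ring

/-- the antisymmetrised function -/
noncomputable def S (n m : ℕ) (x : ℝ) : ℝ := G n m x - G n m (1 - x)

theorem S_half (n m : ℕ) : S n m (1 / 2) = 0 := by
  unfold S; norm_num

theorem S_one_sub (n m : ℕ) (x : ℝ) : S n m (1 - x) = -S n m x := by
  unfold S; rw [sub_sub_cancel]; ring

noncomputable def S1 (n m : ℕ) (x : ℝ) : ℝ :=
  G n m x * psi n m x + G n m (1 - x) * psi n m (1 - x)

noncomputable def S2 (n m : ℕ) (x : ℝ) : ℝ :=
  G n m x * (psi n m x ^ 2 + psi' n m x) - G n m (1 - x) * (psi n m (1 - x) ^ 2 + psi' n m (1 - x))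

theorem hasDerivAt_S (n m : ℕ) {x : ℝ} (h0 : 0 < x) (h1 : x < 1) :
    HasDerivAt (S n m) (S1 n m x) x := by
  have h := (hasDerivAt_G n m h0 h1).sub
    ((hasDerivAt_G n m (x := 1 - x) (by linarith) (by linarith)).comp x
      ((hasDerivAt_id x).const_sub 1))
  refine h.congr_deriv ?_
  unfold S1
  ring

theorem hasDerivAt_S1 (n m : ℕ) {x : ℝ} (h0 : 0 < x) (h1 : x < 1) :
    HasDerivAt (S1 n m) (S2 n m x) x := by
  have hg := fun (y : ℝ) (h0 : 0 < y) (h1 : y < 1) =>
    (hasDerivAt_G n m h0 h1).mul (hasDerivAt_psi n m h0 h1)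
  have h := (hg x h0 h1).add
    ((hg (1 - x) (by linarith) (by linarith)).comp x ((hasDerivAt_id x).const_sub 1))
  refine h.congr_deriv ?_
  unfold S2
  ring

/-! ### the function `w` -/

/-- `x / a + (1-x) / b` -/
noncomputable def w (x : ℝ) : ℝ := x / A x + (1 - x) / A (1 - x)

theorem N2_nonneg {t : ℝ} (ht : 0 ≤ t) : 0 ≤ (t - 2) * Real.exp t + 2 + t := by
  have hmono : MonotoneOn (fun t : ℝ => (t - 2) * Real.exp t + 2 + t) (Ici 0) := by
    have hd : ∀ t : ℝ, HasDerivAt (fun t : ℝ => (t - 2) * Real.exp t + 2 + t)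
        (Real.exp t + (t - 2) * Real.exp t + 1) t := by
      intro t
      have := ((((hasDerivAt_id t).sub_const 2).mul (Real.hasDerivAt_exp t)).add_const 2).add
        (hasDerivAt_id t)
      refine this.congr_deriv ?_
      simp
    apply monotoneOn_of_deriv_nonneg (convex_Ici 0)
    · exact fun t _ => (hd t).continuousAt.continuousWithinAt
    · exact fun t _ => (hd t).differentiableAt.differentiableWithinAt
    · intro t _
      rw [(hd t).deriv]
      have h1 := Real.add_one_le_exp (-t)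
      have h2 : Real.exp t * Real.exp (-t) = 1 := by rw [← Real.exp_add]; simp
      have h3 := Real.exp_pos t
      nlinarith [mul_le_mul_of_nonneg_left h1 h3.le]
  have := hmono (mem_Ici.2 le_rfl) (mem_Ici.2 ht) ht
  simpa using this

theorem d_mono {s t : ℝ} (hs : 0 < s) (hst : s ≤ t) :
    (Real.exp s - 1 - s) / s ^ 2 ≤ (Real.exp t - 1 - t) / t ^ 2 := by
  have hmono : MonotoneOn (fun t : ℝ => (Real.exp t - 1 - t) / t ^ 2) (Ioi 0) := by
    have hd : ∀ t : ℝ, 0 < t → HasDerivAt (fun t : ℝ => (Real.exp t - 1 - t) / t ^ 2)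
        (((t - 2) * Real.exp t + 2 + t) / t ^ 3) t := by
      intro t ht
      have := (((Real.hasDerivAt_exp t).sub_const 1).sub (hasDerivAt_id t)).div
        ((hasDerivAt_id t).pow 2) (by simpa using ht.ne')
      refine this.congr_deriv ?_
      simp only [id_eq, Pi.pow_apply, Pi.sub_apply]
      field_simp
      ring
    apply monotoneOn_of_deriv_nonneg (convex_Ioi 0)
    · exact fun t ht => (hd t ht).continuousAt.continuousWithinAt
    · intro t ht
      rw [interior_Ioi] at ht
      exact (hd t ht).differentiableAt.differentiableWithinAt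
    · intro t ht
      rw [interior_Ioi] at ht
      rw [(hd t ht).deriv]
      have ht' : 0 < t := ht
      exact div_nonneg (N2_nonneg ht'.le) (by positivity)
  exact hmono (mem_Ioi.2 hs) (mem_Ioi.2 (hs.trans_le hst)) hst

theorem A_le_of {x : ℝ} (hx : 1 / 2 ≤ x) (h1 : x < 1) : A (1 - x) ≤ A x := by
  rw [A_one_sub]; unfold A
  have := Real.log_le_log (x := 1 - x) (y := x) (by linarith) (by linarith)
  linarith

theorem hasDerivAt_w {x : ℝ} (h0 : 0 < x) (h1 : x < 1) :
    HasDerivAt w ((Real.exp (A (1 - x)) - 1 - A (1 - x)) / A (1 - x) ^ 2 -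
      (Real.exp (A x) - 1 - A x) / A x ^ 2) x := by
  have hA := A_pos h0 h1
  have hB := A_pos (x := 1 - x) (by linarith) (by linarith)
  have hx : 0 < 1 - x := by linarith
  have h := ((hasDerivAt_id x).div (hasDerivAt_A h1) hA.ne').add
    (((hasDerivAt_id x).const_sub 1).div (hasDerivAt_A' h0) hB.ne')
  refine h.congr_deriv ?_
  have e1 : Real.exp (A x) = 1 / (1 - x) := by
    rw [← exp_neg_A h1, Real.exp_neg]; simp
  have e2 : Real.exp (A (1 - x)) = 1 / x := by
    have := exp_neg_A (x := 1 - x) (by linarith)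
    rw [Real.exp_neg, sub_sub_cancel] at this
    rw [one_div]; exact inv_eq_iff_eq_inv.1 this
  rw [e1, e2]
  simp only [id_eq]
  field_simp
  ring

theorem w_anti : AntitoneOn w (Ico (1 / 2) 1) := by
  apply antitoneOn_of_deriv_nonpos (convex_Ico _ _)
  · intro x hx
    exact (hasDerivAt_w (by linarith [hx.1]) hx.2).continuousAt.continuousWithinAt
  · intro x hx
    rw [interior_Ico] at hx
    exact (hasDerivAt_w (by linarith [hx.1]) hx.2).differentiableAt.differentiableWithinAt
  · intro x hx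
    rw [interior_Ico] at hx
    rw [(hasDerivAt_w (by linarith [hx.1]) hx.2).deriv]
    have := d_mono (A_pos (x := 1 - x) (by linarith [hx.2]) (by linarith [hx.1]))
      (A_le_of hx.1.le hx.2)
    linarith

theorem A_half : A (1 / 2) = Real.log 2 := by
  unfold A
  rw [show (1 : ℝ) - 1 / 2 = 2⁻¹ by norm_num, Real.log_inv, neg_neg]

theorem w_half : w (1 / 2) = 1 / Real.log 2 := by
  unfold w
  rw [show (1 : ℝ) - 1 / 2 = 1 / 2 by norm_num, A_half]
  ring

/-! ### sign of `S` -/

noncomputable def u (n m : ℕ) (x : ℝ) : ℝ :=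
  m * (A x - A (1 - x)) - n * (Real.log (A x) - Real.log (A (1 - x)))

theorem hasDerivAt_u (n m : ℕ) {x : ℝ} (h0 : 0 < x) (h1 : x < 1) :
    HasDerivAt (u n m) ((m - n * w x) / (x * (1 - x))) x := by
  have hA := A_pos h0 h1
  have hB := A_pos (x := 1 - x) (by linarith) (by linarith)
  have hx : 0 < 1 - x := by linarith
  have h := (((hasDerivAt_A h1).sub (hasDerivAt_A' h0)).const_mul (m : ℝ)).sub
    ((((hasDerivAt_A h1).log hA.ne').sub ((hasDerivAt_A' h0).log hB.ne')).const_mul (n : ℝ))
  refine h.congr_deriv ?_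
  unfold w
  field_simp
  ring

theorem u_half (n m : ℕ) : u n m (1 / 2) = 0 := by
  unfold u; norm_num

theorem G_eq_exp (n m : ℕ) {x : ℝ} (h0 : 0 < x) (h1 : x < 1) :
    G n m x = Real.exp (n * Real.log (A x) - m * A x) := by
  have hA := A_pos h0 h1
  unfold G
  rw [Real.exp_sub, mul_comm (n : ℝ), Real.exp_mul, Real.exp_log hA, Real.rpow_natCast,
    mul_comm (m : ℝ), Real.exp_mul, Real.rpow_natCast, div_eq_mul_inv, ← inv_pow, ← Real.exp_neg,
    exp_neg_A h1]

theorem S_pos_iff (n m : ℕ) {x : ℝ} (h0 : 0 < x) (h1 : x < 1) : 0 < S n m x ↔ u n m x < 0 := by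
  unfold S
  rw [sub_pos, G_eq_exp n m h0 h1, G_eq_exp n m (x := 1 - x) (by linarith) (by linarith),
    Real.exp_lt_exp]
  unfold u
  constructor <;> intro h <;> linarith

/-- positivity is an initial property -/
theorem S_pos_initial (n m : ℕ) {x y : ℝ} (hx : 1 / 2 < x) (hxy : x < y) (hy : y < 1)
    (h : 0 < S n m y) : 0 < S n m x := by
  rw [S_pos_iff n m (by linarith) hy] at h
  rw [S_pos_iff n m (by linarith) (by linarith)]
  by_contra hu
  push Not at hu
  have hc : ∀ z, 0 < z → z < 1 → ContinuousAt (u n m) z := fun z h0 h1 =>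
    (hasDerivAt_u n m h0 h1).continuousAt
  obtain ⟨c, hc1, hc2⟩ := exists_hasDerivAt_eq_slope (u n m)
    (fun x => (m - n * w x) / (x * (1 - x))) hx
    (fun z hz => (hc z (by linarith [hz.1]) (by linarith [hz.2])).continuousWithinAt)
    (fun z hz => hasDerivAt_u n m (by linarith [hz.1]) (by linarith [hz.2]))
  obtain ⟨d, hd1, hd2⟩ := exists_hasDerivAt_eq_slope (u n m)
    (fun x => (m - n * w x) / (x * (1 - x))) hxy
    (fun z hz => (hc z (by linarith [hz.1]) (by linarith [hz.2])).continuousWithinAt)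
    (fun z hz => hasDerivAt_u n m (by linarith [hz.1]) (by linarith [hz.2]))
  rw [u_half, sub_zero] at hc2
  have p1 : 0 ≤ (m - n * w c) / (c * (1 - c)) := by
    rw [hc2]; exact div_nonneg hu (by linarith)
  have p2 : (m - n * w d) / (d * (1 - d)) < 0 := by
    rw [hd2]; exact div_neg_of_neg_of_pos (by linarith) (by linarith)
  have k1 : 0 < c * (1 - c) := mul_pos (by linarith [hc1.1]) (by linarith [hc1.2])
  have k2 : 0 < d * (1 - d) := mul_pos (by linarith [hd1.1]) (by linarith [hd1.2])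
  have q1 : 0 ≤ m - n * w c := by
    by_contra h
    push Not at h
    exact absurd p1 (not_le.2 (div_neg_of_neg_of_pos h k1))
  have q2 : m - n * w d < 0 := by
    by_contra h
    push Not at h
    exact absurd p2 (not_lt.2 (div_nonneg h k2.le))
  have hw := w_anti (a := c) (b := d) ⟨hc1.1.le, by linarith [hc1.2]⟩ ⟨by linarith [hd1.1], by linarith [hd1.2]⟩
    (by linarith [hc1.2, hd1.1])
  have : (n : ℝ) * w d ≤ n * w c := mul_le_mul_of_nonneg_left hw (Nat.cast_nonneg n)
  linarith

/-- if `S` is positive somewhere then `m log 2 < n` -/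
theorem lt_of_S_pos (n m : ℕ) {x : ℝ} (hx : 1 / 2 < x) (h1 : x < 1) (h : 0 < S n m x) :
    m * Real.log 2 < n := by
  rw [S_pos_iff n m (by linarith) h1] at h
  have hl := Real.log_pos (x := 2) (by norm_num)
  by_contra hc
  push Not at hc
  obtain ⟨c, hc1, hc2⟩ := exists_hasDerivAt_eq_slope (u n m)
    (fun x => (m - n * w x) / (x * (1 - x))) hx
    (fun z hz => (hasDerivAt_u n m (by linarith [hz.1]) (by linarith [hz.2])).continuousAt.continuousWithinAt)
    (fun z hz => hasDerivAt_u n m (by linarith [hz.1]) (by linarith [hz.2]))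
  rw [u_half, sub_zero] at hc2
  have p2 : (m - n * w c) / (c * (1 - c)) < 0 := by
    rw [hc2]; exact div_neg_of_neg_of_pos h (by linarith)
  have k1 : 0 < c * (1 - c) := mul_pos (by linarith [hc1.1]) (by linarith [hc1.2])
  have q2 : m - n * w c < 0 := by
    by_contra h
    push Not at h
    exact absurd p2 (not_lt.2 (div_nonneg h k1.le))
  have hw := w_anti (a := 1 / 2) (b := c) ⟨le_rfl, by norm_num⟩ ⟨hc1.1.le, by linarith [hc1.2]⟩ hc1.1.le
  rw [w_half] at hw
  have h3 : (n : ℝ) * w c ≤ n * (1 / Real.log 2) := mul_le_mul_of_nonneg_left hw (Nat.cast_nonneg n)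
  have h4 : (n : ℝ) * (1 / Real.log 2) ≤ m := by
    rw [mul_one_div, div_le_iff₀ hl]; exact hc
  linarith

/-! ### critical points -/

theorem R1 {b : ℝ} (hb : 0 < b) (hb2 : b ≤ Real.log 2) :
    (Real.log 2 - 1 / 2) / Real.log 2 ^ 2 ≤ (b - 1 + Real.exp (-b)) / b ^ 2 := by
  have hanti : AntitoneOn (fun t : ℝ => (t - 1 + Real.exp (-t)) / t ^ 2) (Ioi 0) := by
    have hN : ∀ t : ℝ, 0 ≤ t → 2 - t - (t + 2) * Real.exp (-t) ≤ 0 := by
      have hm : AntitoneOn (fun t : ℝ => 2 - t - (t + 2) * Real.exp (-t)) (Ici 0) := by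
        have hd : ∀ t : ℝ, HasDerivAt (fun t : ℝ => 2 - t - (t + 2) * Real.exp (-t))
            (-1 + (t + 1) * Real.exp (-t)) t := by
          intro t
          have h1 : HasDerivAt (fun t : ℝ => Real.exp (-t)) (-Real.exp (-t)) t := by
            simpa using (hasDerivAt_neg t).exp
          have := (((hasDerivAt_id t).const_sub 2)).sub (((hasDerivAt_id t).add_const 2).mul h1)
          refine this.congr_deriv ?_
          simp only [id_eq]
          ring
        apply antitoneOn_of_deriv_nonpos (convex_Ici 0)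
        · exact fun t _ => (hd t).continuousAt.continuousWithinAt
        · exact fun t _ => (hd t).differentiableAt.differentiableWithinAt
        · intro t _
          rw [(hd t).deriv]
          have h1 := Real.add_one_le_exp t
          have h2 : Real.exp t * Real.exp (-t) = 1 := by rw [← Real.exp_add]; simp
          have h3 := Real.exp_pos (-t)
          nlinarith [mul_le_mul_of_nonneg_right h1 h3.le]
      intro t ht
      have := hm (mem_Ici.2 le_rfl) (mem_Ici.2 ht) ht
      simpa using this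
    have hd : ∀ t : ℝ, 0 < t → HasDerivAt (fun t : ℝ => (t - 1 + Real.exp (-t)) / t ^ 2)
        ((2 - t - (t + 2) * Real.exp (-t)) / t ^ 3) t := by
      intro t ht
      have h1 : HasDerivAt (fun t : ℝ => Real.exp (-t)) (-Real.exp (-t)) t := by
        simpa using (hasDerivAt_neg t).exp
      have := (((hasDerivAt_id t).sub_const 1).add h1).div
        ((hasDerivAt_id t).pow 2) (by simpa using ht.ne')
      refine this.congr_deriv ?_
      simp only [id_eq, Pi.pow_apply, Pi.add_apply]
      field_simp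
      ring
    apply antitoneOn_of_deriv_nonpos (convex_Ioi 0)
    · exact fun t ht => (hd t ht).continuousAt.continuousWithinAt
    · intro t ht
      rw [interior_Ioi] at ht
      exact (hd t ht).differentiableAt.differentiableWithinAt
    · intro t ht
      rw [interior_Ioi] at ht
      rw [(hd t ht).deriv]
      have ht' : 0 < t := ht
      exact div_nonpos_of_nonpos_of_nonneg (hN t ht'.le) (by positivity)
  have h := hanti (mem_Ioi.2 hb) (mem_Ioi.2 (hb.trans_le hb2)) hb2
  have e : Real.log 2 - 1 + Real.exp (-Real.log 2) = Real.log 2 - 1 / 2 := by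
    rw [Real.exp_neg, Real.exp_log (by norm_num)]; ring
  simp only [e] at h
  exact h

theorem R2 {a : ℝ} (ha : Real.log 2 ≤ a) :
    1 / (2 * Real.log 2 ^ 2) * a ^ 2 ≤ Real.exp a - 2 + Real.exp (-a) := by
  have l1 := Real.log_two_gt_d9
  have l2 := Real.log_two_lt_d9
  have hl : 0 < Real.log 2 := by linarith
  obtain ⟨c, hc⟩ : ∃ c, c = 1 / Real.log 2 ^ 2 := ⟨_, rfl⟩
  have hc2 : c ≤ 5 / 2 := by
    rw [hc, div_le_iff₀ (by positivity)]; nlinarith
  have hc0 : 0 < c := by rw [hc]; positivity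
  have hcl : c * Real.log 2 ≤ 3 / 2 := by
    rw [hc, one_div, sq, mul_inv, mul_assoc, inv_mul_cancel₀ hl.ne', mul_one]
    rw [inv_eq_one_div, div_le_iff₀ hl]; linarith
  have hneg : ∀ t : ℝ, HasDerivAt (fun t : ℝ => Real.exp (-t)) (-Real.exp (-t)) t := by
    intro t; simpa using (hasDerivAt_neg t).exp
  -- first derivative
  have hD1 : ∀ t : ℝ, Real.log 2 ≤ t → 0 ≤ Real.exp t - Real.exp (-t) - c * t := by
    have hm : MonotoneOn (fun t : ℝ => Real.exp t - Real.exp (-t) - c * t) (Ici (Real.log 2)) := by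
      have hd : ∀ t : ℝ, HasDerivAt (fun t : ℝ => Real.exp t - Real.exp (-t) - c * t)
          (Real.exp t + Real.exp (-t) - c) t := by
        intro t
        have := ((Real.hasDerivAt_exp t).sub (hneg t)).sub ((hasDerivAt_id t).const_mul c)
        refine this.congr_deriv ?_
        ring
      apply monotoneOn_of_deriv_nonneg (convex_Ici _)
      · exact fun t _ => (hd t).continuousAt.continuousWithinAt
      · exact fun t _ => (hd t).differentiableAt.differentiableWithinAt
      · intro t ht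
        rw [interior_Ici] at ht
        rw [(hd t).deriv]
        have ht' : Real.log 2 < t := ht
        have h1 : 2 ≤ Real.exp t := by
          rw [← Real.exp_log (show (0 : ℝ) < 2 by norm_num)]
          exact Real.exp_le_exp.2 ht'.le
        have h2 : Real.exp t * Real.exp (-t) = 1 := by rw [← Real.exp_add]; simp
        have h3 := Real.exp_pos (-t)
        nlinarith [mul_nonneg (sub_nonneg.2 h1) (sub_nonneg.2 h1),
          mul_nonneg (sub_nonneg.2 h1) h3.le]
    intro t ht
    have := hm (mem_Ici.2 le_rfl) (mem_Ici.2 ht) ht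
    have e : Real.exp (-Real.log 2) = 1 / 2 := by
      rw [Real.exp_neg, Real.exp_log (by norm_num)]; norm_num
    simp only [e, Real.exp_log (show (0 : ℝ) < 2 by norm_num)] at this
    linarith
  have hm : MonotoneOn (fun t : ℝ => Real.exp t - 2 + Real.exp (-t) - c / 2 * t ^ 2)
      (Ici (Real.log 2)) := by
    have hd : ∀ t : ℝ, HasDerivAt (fun t : ℝ => Real.exp t - 2 + Real.exp (-t) - c / 2 * t ^ 2)
        (Real.exp t - Real.exp (-t) - c * t) t := by
      intro t
      have := (((Real.hasDerivAt_exp t).sub_const 2).add (hneg t)).sub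
        (((hasDerivAt_id t).pow 2).const_mul (c / 2))
      refine this.congr_deriv ?_
      simp
      ring
    apply monotoneOn_of_deriv_nonneg (convex_Ici _)
    · exact fun t _ => (hd t).continuousAt.continuousWithinAt
    · exact fun t _ => (hd t).differentiableAt.differentiableWithinAt
    · intro t ht
      rw [interior_Ici] at ht
      rw [(hd t).deriv]
      have ht' : Real.log 2 < t := ht
      exact hD1 t ht'.le
  have h := hm (mem_Ici.2 le_rfl) (mem_Ici.2 ha) ha
  have e : Real.exp (-Real.log 2) = 1 / 2 := by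
    rw [Real.exp_neg, Real.exp_log (by norm_num)]; norm_num
  simp only [e, Real.exp_log (show (0 : ℝ) < 2 by norm_num)] at h
  have e2 : c / 2 * Real.log 2 ^ 2 = 1 / 2 := by
    rw [hc]; field_simp
  have e3 : 1 / (2 * Real.log 2 ^ 2) = c / 2 := by
    rw [hc]; field_simp
  rw [e3]
  linarith

/-- the key inequality -/
theorem key {x : ℝ} (hx : 1 / 2 ≤ x) (h1 : x < 1) :
    1 / Real.log 2 ≤ 1 / A (1 - x) - (1 - x) / A (1 - x) ^ 2 + x ^ 2 / (A x ^ 2 * (1 - x)) := by
  have hl := Real.log_pos (x := 2) (by norm_num)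
  have hA := A_pos (x := x) (by linarith) h1
  have hB := A_pos (x := 1 - x) (by linarith) (by linarith)
  have hx1 : 0 < 1 - x := by linarith
  have hB2 : A (1 - x) ≤ Real.log 2 := by
    rw [A_one_sub]
    have := Real.log_le_log (x := 1 / 2) (by norm_num) hx
    rw [one_div, Real.log_inv] at this
    linarith
  have hA2 : Real.log 2 ≤ A x := by
    unfold A
    have := Real.log_le_log (x := 1 - x) (y := 1 / 2) hx1 (by linarith)
    rw [one_div, Real.log_inv] at this
    linarith
  have r1 := R1 hB hB2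
  have r2 := R2 hA2
  have e1 : Real.exp (A x) = 1 / (1 - x) := by
    rw [← exp_neg_A h1, Real.exp_neg]; simp
  have e2 : Real.exp (-A (1 - x)) = x := by
    rw [exp_neg_A (by linarith), sub_sub_cancel]
  rw [e2] at r1
  rw [e1, exp_neg_A h1] at r2
  have h3 : 1 / (2 * Real.log 2 ^ 2) ≤ x ^ 2 / (A x ^ 2 * (1 - x)) := by
    rw [le_div_iff₀ (by positivity)]
    have e3 : 1 / (1 - x) - 2 + (1 - x) = x ^ 2 / (1 - x) := by
      field_simp; ring
    rw [e3, le_div_iff₀ hx1] at r2
    linarith
  have h4 : 1 / A (1 - x) - (1 - x) / A (1 - x) ^ 2 = (A (1 - x) - 1 + x) / A (1 - x) ^ 2 := by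
    field_simp; ring
  rw [h4]
  have h5 : 1 / Real.log 2 = (Real.log 2 - 1 / 2) / Real.log 2 ^ 2 + 1 / (2 * Real.log 2 ^ 2) := by
    field_simp; ring
  rw [h5]
  linarith

/-- at a critical point where `S` is positive the second derivative is negative -/
theorem S2_neg (n m : ℕ) (hn : 1 ≤ n) {x : ℝ} (hx : 1 / 2 < x) (h1 : x < 1)
    (hpos : 0 < S n m x) (hcrit : S1 n m x = 0) : S2 n m x < 0 := by
  have hlt := lt_of_S_pos n m hx h1 hpos
  have hl := Real.log_pos (x := 2) (by norm_num)
  have h0 : 0 < x := by linarith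
  have hx1 : 0 < 1 - x := by linarith
  have hA := A_pos h0 h1
  have hB := A_pos (x := 1 - x) hx1 (by linarith)
  have hp := G_pos n m h0 h1
  have hq := G_pos n m (x := 1 - x) hx1 (by linarith)
  have hn0 : (0 : ℝ) < n := by exact_mod_cast hn
  have hB2 : A (1 - x) < Real.log 2 := by
    rw [A_one_sub]
    have := Real.log_lt_log (x := 1 / 2) (by norm_num) hx
    rw [one_div, Real.log_inv] at this
    linarith
  have hkey := key hx.le h1
  unfold S at hpos
  unfold S1 psi at hcrit
  unfold S2 psi psi'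
  rw [sub_sub_cancel] at *
  generalize hp' : G n m x = p at *
  generalize hq' : G n m (1 - x) = q at *
  generalize A x = a at *
  generalize A (1 - x) = b at *
  obtain ⟨Z, hZ⟩ : ∃ Z : ℝ, Z = n / b - m := ⟨_, rfl⟩
  obtain ⟨Y, hY⟩ : ∃ Y : ℝ, Y = m - n / a := ⟨_, rfl⟩
  have hZ0 : 0 < Z := by
    rw [hZ, sub_pos, lt_div_iff₀ hB]
    rcases Nat.eq_zero_or_pos m with hm | hm
    · subst hm; simpa using hn0
    · have hm0 : (0 : ℝ) < m := by exact_mod_cast hm
      nlinarith
  have e1 : (n : ℝ) / a - m = -Y := by rw [hY]; ring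
  rw [← hZ, e1] at hcrit
  rw [← hZ, e1]
  -- p * Y * x = q * Z * (1 - x)
  have hc : p * Y * x = q * Z * (1 - x) := by
    field_simp at hcrit
    linarith
  have hY0 : 0 < Y := by
    have : 0 < p * Y * x := by rw [hc]; positivity
    by_contra h
    push Not at h
    have : p * Y * x ≤ 0 := by
      have := mul_nonpos_of_nonneg_of_nonpos hp.le h
      nlinarith
    linarith
  have hYZ : Y * x < Z * (1 - x) := by
    have h2 : q * (Y * x) < p * (Y * x) := mul_lt_mul_of_pos_right (by linarith) (by positivity)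
    have h3 : p * (Y * x) = q * (Z * (1 - x)) := by linarith
    rw [h3] at h2
    exact lt_of_mul_lt_mul_left h2 hq.le
  -- rewrite the goal
  have hgoal : p * ((-Y / (1 - x)) ^ 2 + (-Y - n / a ^ 2) / (1 - x) ^ 2) -
      q * ((Z / x) ^ 2 + (Z - n / b ^ 2) / x ^ 2) =
      p / (1 - x) ^ 2 * (Y ^ 2 - Y - n / a ^ 2) - q / x ^ 2 * (Z ^ 2 + Z - n / b ^ 2) := by
    field_simp
    ring
  rw [hgoal]
  -- multiply with Y * Z and use P Y = Q Z
  obtain ⟨W, hW⟩ : ∃ W : ℝ, W = p * Y / (1 - x) := ⟨_, rfl⟩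
  have hW0 : 0 < W := by rw [hW]; positivity
  have hW2 : q * Z / x = W := by
    rw [hW, div_eq_div_iff h0.ne' hx1.ne']; linarith
  have hpW : p / (1 - x) ^ 2 = W / (Y * (1 - x)) := by
    rw [hW]; field_simp
  have hqW : q / x ^ 2 = W / (Z * x) := by
    rw [← hW2]; field_simp
  rw [hpW, hqW]
  have hmn : (m : ℝ) / n ≤ 1 / Real.log 2 := by
    rw [div_le_div_iff₀ hn0 hl]; linarith
  have hE : (1 - x) / b ^ 2 ≤ Z / n + x ^ 2 / (a ^ 2 * (1 - x)) := by
    have : Z / n = 1 / b - m / n := by rw [hZ]; field_simp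
    rw [this]; linarith
  -- final inequality
  have key2 : Z * (Y ^ 2 - Y - n / a ^ 2) / (1 - x) < Y * (Z ^ 2 + Z - n / b ^ 2) / x := by
    have t1 : Y * Z * (Y / (1 - x)) < Y * Z * (Z / x) := by
      apply mul_lt_mul_of_pos_left _ (by positivity)
      rw [div_lt_div_iff₀ hx1 h0]; exact hYZ
    have t2 : Y * n / (b ^ 2 * x) ≤ Y * Z / (x * (1 - x)) + Y * (x * n) / (a ^ 2 * (1 - x) ^ 2) := by
      have := mul_le_mul_of_nonneg_left hE (show 0 ≤ Y * n / (x * (1 - x)) by positivity)
      have e2 : Y * n / (x * (1 - x)) * ((1 - x) / b ^ 2) = Y * n / (b ^ 2 * x) := by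
        field_simp
      have e3 : Y * n / (x * (1 - x)) * (Z / n + x ^ 2 / (a ^ 2 * (1 - x))) =
          Y * Z / (x * (1 - x)) + Y * (x * n) / (a ^ 2 * (1 - x) ^ 2) := by
        field_simp
      rw [e2, e3] at this
      exact this
    have t3 : Y * (x * n) / (a ^ 2 * (1 - x) ^ 2) ≤ Z * n / (a ^ 2 * (1 - x)) := by
      rw [div_le_div_iff₀ (by positivity) (by positivity)]
      have := mul_le_mul_of_nonneg_right hYZ.le (show 0 ≤ (n : ℝ) * a ^ 2 * (1 - x) by positivity)
      linarith
    have e4 : Z * (Y ^ 2 - Y - n / a ^ 2) / (1 - x) =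
        Y * Z * (Y / (1 - x)) - Y * Z / (1 - x) - Z * n / (a ^ 2 * (1 - x)) := by
      field_simp
    have e5 : Y * (Z ^ 2 + Z - n / b ^ 2) / x =
        Y * Z * (Z / x) + Y * Z / x - Y * n / (b ^ 2 * x) := by
      field_simp
    have e6 : Y * Z / (x * (1 - x)) = Y * Z / (1 - x) + Y * Z / x := by
      field_simp; ring
    rw [e4, e5]
    linarith
  have e7 : W / (Y * (1 - x)) * (Y ^ 2 - Y - n / a ^ 2) - W / (Z * x) * (Z ^ 2 + Z - n / b ^ 2) =
      W / (Y * Z) * (Z * (Y ^ 2 - Y - n / a ^ 2) / (1 - x) - Y * (Z ^ 2 + Z - n / b ^ 2) / x) := by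
    field_simp
  rw [e7]
  exact mul_neg_of_pos_of_neg (by positivity) (by linarith)

/-- no interior minimum in the region where `S` is positive -/
theorem no_min (n m : ℕ) (hn : 1 ≤ n) {c d z : ℝ} (hc : 1 / 2 ≤ c) (hd : d ≤ 1) (hz : z ∈ Ioo c d)
    (hpos : 0 < S n m z) (hmin : ∀ y ∈ Icc c d, S n m z ≤ S n m y) : False := by
  have hz0 : 0 < z := by linarith [hz.1]
  have hz1 : z < 1 := by linarith [hz.2]
  have hloc : IsLocalMin (S n m) z := by
    filter_upwards [Icc_mem_nhds hz.1 hz.2] with y hy using hmin y hy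
  have hS1 : S1 n m z = 0 := hloc.hasDerivAt_eq_zero (hasDerivAt_S n m hz0 hz1)
  have hS2 := S2_neg n m hn (by linarith [hz.1]) hz1 hpos hS1
  have hev : ∀ᶠ y in nhds z, deriv (S n m) y = S1 n m y := by
    filter_upwards [Ioo_mem_nhds hz0 hz1] with y hy using (hasDerivAt_S n m hy.1 hy.2).deriv
  have hdd : deriv (deriv (S n m)) z = S2 n m z := by
    rw [Filter.EventuallyEq.deriv_eq hev]
    exact (hasDerivAt_S1 n m hz0 hz1).deriv
  have hmax : IsLocalMax (S n m) z := by
    apply isLocalMax_of_deriv_deriv_neg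
    · rw [hdd]; exact hS2
    · rw [(hasDerivAt_S n m hz0 hz1).deriv]; exact hS1
    · exact (hasDerivAt_S n m hz0 hz1).continuousAt
  have hconst : ∀ᶠ y in nhds z, S n m y = S n m z := by
    filter_upwards [hloc, hmax] with y h1 h2 using le_antisymm h2 h1
  have h1 : ∀ᶠ y in nhds z, deriv (S n m) y = 0 := by
    have h2 := hconst.eventually_nhds
    filter_upwards [h2] with y hy
    have : S n m =ᶠ[nhds y] fun _ => S n m z := hy
    rw [this.deriv_eq]
    simp
  have h3 : deriv (deriv (S n m)) z = 0 := by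
    have : deriv (S n m) =ᶠ[nhds z] fun _ => (0 : ℝ) := h1
    rw [this.deriv_eq]
    simp
  rw [hdd] at h3
  linarith

end Pool.Agent.R190.KR
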