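import Mathlib
import Pool.Agent.R190.KR.Shape

/-!
# Continuity, antiderivative, quasi-concavity, the point `α`
-/

set_option autoImplicit false

namespace Pool.Agent.R190.KR

open Real Set MeasureTheory

/-! ### continuity of `G` up to the endpoint -/

theorem A_zero : A 0 = 0 := by unfold A; simp
theorem A_one : A 1 = 0 := by unfold A; simp

theorem A_nonneg {x : ℝ} (h0 : 0 ≤ x) (h1 : x < 1) : 0 ≤ A x := by
  rcases h0.eq_or_lt with h | h
  · rw [← h, A_zero]
  · exact (A_pos h h1).le

/-- `A^j (1-x) ≤ 2^j j! √(1-x)` -/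
theorem A_pow_bound (j : ℕ) {x : ℝ} (h0 : 0 ≤ x) (h1 : x ≤ 1) :
    (A x) ^ j * (1 - x) ≤ 2 ^ j * j.factorial * Real.sqrt (1 - x) := by
  rcases h1.eq_or_lt with h | h
  · subst h; simp
  have hA := A_nonneg h0 h
  have h2 := Real.pow_div_factorial_le_exp (A x / 2) (by positivity) j
  have hf : (0 : ℝ) < j.factorial := by exact_mod_cast Nat.factorial_pos j
  rw [div_le_iff₀ hf, div_pow, div_le_iff₀ (by positivity)] at h2
  have h3 : Real.sqrt (1 - x) = Real.exp (-(A x / 2)) := by
    rw [← exp_neg_A h, show -A x = -(A x / 2) + -(A x / 2) by ring, Real.exp_add,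
      Real.sqrt_mul_self (Real.exp_pos _).le]
  have h4 : (1 - x) = Real.sqrt (1 - x) * Real.sqrt (1 - x) :=
    (Real.mul_self_sqrt (by linarith)).symm
  have h5 : Real.exp (A x / 2) * Real.sqrt (1 - x) = 1 := by
    rw [h3, ← Real.exp_add]; simp
  calc (A x) ^ j * (1 - x)
      ≤ (Real.exp (A x / 2) * j.factorial * 2 ^ j) * (1 - x) :=
        mul_le_mul_of_nonneg_right h2 (by linarith)
    _ = (Real.exp (A x / 2) * Real.sqrt (1 - x)) * (2 ^ j * j.factorial * Real.sqrt (1 - x)) := by
        nth_rewrite 1 [h4]; ring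
    _ = _ := by rw [h5, one_mul]

theorem G_bound (n m : ℕ) (hm : 1 ≤ m) {x : ℝ} (h0 : 0 ≤ x) (h1 : x ≤ 1) :
    |G n m x| ≤ 2 ^ n * n.factorial * Real.sqrt (1 - x) := by
  rcases h1.eq_or_lt with h | h
  · subst h
    unfold G
    simp [show m ≠ 0 by omega]
  have hA := A_nonneg h0 h
  have hx : 0 < 1 - x := by linarith
  rw [abs_of_nonneg (by unfold G; positivity)]
  refine le_trans ?_ (A_pow_bound n h0 h1)
  unfold G
  apply mul_le_mul_of_nonneg_left _ (by positivity)
  calc (1 - x) ^ m ≤ (1 - x) ^ 1 := pow_le_pow_of_le_one hx.le (by linarith) hm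
    _ = 1 - x := pow_one _

theorem G_at_one (n m : ℕ) (hm : 1 ≤ m) : G n m 1 = 0 := by
  unfold G; simp [show m ≠ 0 by omega]

theorem G_at_zero (n m : ℕ) (hn : 1 ≤ n) : G n m 0 = 0 := by
  unfold G; simp [A_zero, show n ≠ 0 by omega]

theorem continuousOn_G (n m : ℕ) (hm : 1 ≤ m) : ContinuousOn (G n m) (Icc 0 1) := by
  intro x hx
  rcases hx.2.eq_or_lt with h | h
  · subst h
    unfold ContinuousWithinAt
    rw [G_at_one n m hm]
    apply squeeze_zero_norm' (a := fun x : ℝ => 2 ^ n * (n.factorial : ℝ) * Real.sqrt (1 - x))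
    · filter_upwards [self_mem_nhdsWithin] with y hy
      exact G_bound n m hm hy.1 hy.2
    · have : Filter.Tendsto (fun x : ℝ => 2 ^ n * (n.factorial : ℝ) * Real.sqrt (1 - x)) (nhds 1)
          (nhds (2 ^ n * (n.factorial : ℝ) * Real.sqrt (1 - 1))) := by
        apply Continuous.tendsto
        fun_prop
      simp only [sub_self, Real.sqrt_zero, mul_zero] at this
      exact this.mono_left nhdsWithin_le_nhds
  · have hc : ContinuousAt (G n m) x := by
      unfold G A
      apply ContinuousAt.mul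
      · apply ContinuousAt.pow
        apply ContinuousAt.neg
        apply ContinuousAt.log
        · fun_prop
        · linarith
      · fun_prop
    exact hc.continuousWithinAt

theorem continuousOn_S (n m : ℕ) (hm : 1 ≤ m) : ContinuousOn (S n m) (Icc 0 1) := by
  unfold S
  apply (continuousOn_G n m hm).sub
  apply (continuousOn_G n m hm).comp (by fun_prop)
  intro x hx
  exact ⟨by linarith [hx.2], by linarith [hx.1]⟩

theorem S_at_one (n m : ℕ) (hn : 1 ≤ n) (hm : 1 ≤ m) : S n m 1 = 0 := by
  unfold S; rw [G_at_one n m hm, sub_self, G_at_zero n m hn, sub_zero]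

theorem measurable_S (n m : ℕ) : Measurable (S n m) := by
  unfold S G A
  fun_prop

theorem measurable_G (n m : ℕ) : Measurable (G n m) := by
  unfold G A
  fun_prop

/-! ### quasi-concavity -/

theorem quasi (n m : ℕ) (hn : 1 ≤ n) (hm : 1 ≤ m) {x z y : ℝ} (hx : 1 / 2 < x) (hxz : x < z)
    (hzy : z < y) (hy1 : y ≤ 1) (hpos : 0 < S n m y) : min (S n m x) (S n m y) < S n m z := by
  have hy : y < 1 := by
    rcases hy1.eq_or_lt with h | h
    · rw [h, S_at_one n m hn hm] at hpos; exact absurd hpos (lt_irrefl _)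
    · exact h
  have hall : ∀ v ∈ Icc x y, 0 < S n m v := by
    intro v hv
    rcases hv.2.eq_or_lt with h | h
    · rw [h]; exact hpos
    · exact S_pos_initial n m (by linarith [hv.1]) h hy hpos
  by_contra hcon
  push Not at hcon
  have hcont : ContinuousOn (S n m) (Icc x y) :=
    (continuousOn_S n m hm).mono (Icc_subset_Icc (by linarith) hy1)
  obtain ⟨v, hv, hmin⟩ := isCompact_Icc.exists_isMinOn ⟨x, left_mem_Icc.2 (by linarith)⟩ hcont
  have hmin' : ∀ w ∈ Icc x y, S n m v ≤ S n m w := fun w hw => hmin hw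
  rcases hv.1.eq_or_lt with h | h
  · -- v = x
    apply no_min n m hn (c := x) (d := y) (z := z) hx.le hy1 ⟨hxz, hzy⟩
      (hall z ⟨hxz.le, hzy.le⟩)
    intro w hw
    refine le_trans ?_ (hmin' w hw)
    rw [← h]
    exact hcon.trans (min_le_left _ _)
  · rcases hv.2.eq_or_lt with h' | h'
    · apply no_min n m hn (c := x) (d := y) (z := z) hx.le hy1 ⟨hxz, hzy⟩
        (hall z ⟨hxz.le, hzy.le⟩)
      intro w hw
      refine le_trans ?_ (hmin' w hw)
      rw [h']
      exact hcon.trans (min_le_right _ _)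
    · exact no_min n m hn (c := x) (d := y) (z := v) hx.le hy1 ⟨h, h'⟩ (hall v hv) hmin'

/-- the maximiser and the monotonicity pattern -/
theorem exists_peak (n m : ℕ) (hn : 1 ≤ n) (hm : 1 ≤ m)
    (hpos : ∃ x ∈ Icc (1 / 2 : ℝ) 1, 0 < S n m x) :
    ∃ c ∈ Ioo (1 / 2 : ℝ) 1, 0 < S n m c ∧ (∀ x ∈ Icc (1 / 2 : ℝ) 1, S n m x ≤ S n m c) ∧
      StrictMonoOn (S n m) (Icc (1 / 2) c) ∧
      (∀ x y, c ≤ x → x ≤ y → y ≤ 1 → 0 < S n m y → S n m y ≤ S n m x) := by
  obtain ⟨x0, hx0, hx0pos⟩ := hpos
  have hcont : ContinuousOn (S n m) (Icc (1 / 2 : ℝ) 1) :=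
    (continuousOn_S n m hm).mono (Icc_subset_Icc (by norm_num) le_rfl)
  obtain ⟨c, hc, hmax⟩ := isCompact_Icc.exists_isMaxOn ⟨x0, hx0⟩ hcont
  have hmax' : ∀ w ∈ Icc (1 / 2 : ℝ) 1, S n m w ≤ S n m c := fun w hw => hmax hw
  have hcpos : 0 < S n m c := hx0pos.trans_le (hmax' x0 hx0)
  have hc1 : 1 / 2 < c := by
    rcases hc.1.eq_or_lt with h | h
    · rw [← h, S_half] at hcpos; exact absurd hcpos (lt_irrefl _)
    · exact h
  have hc2 : c < 1 := by
    rcases hc.2.eq_or_lt with h | h
    · rw [h, S_at_one n m hn hm] at hcpos; exact absurd hcpos (lt_irrefl _)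
    · exact h
  have hposc : ∀ v, 1 / 2 < v → v ≤ c → 0 < S n m v := by
    intro v h1 h2
    rcases h2.eq_or_lt with h | h
    · rw [h]; exact hcpos
    · exact S_pos_initial n m h1 h hc2 hcpos
  refine ⟨c, ⟨hc1, hc2⟩, hcpos, hmax', ?_, ?_⟩
  · intro x hx y hy hxy
    rcases hx.1.eq_or_lt with h | h
    · rw [← h, S_half]
      exact hposc y (by rw [h]; exact hxy) hy.2
    · rcases hy.2.eq_or_lt with h' | h'
      · have h1 := quasi n m hn hm (x := x) (z := (x + y) / 2) (y := y) h (by linarith)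
          (by linarith) (by linarith) (hposc y (by linarith) hy.2)
        have h2 := hmax' ((x + y) / 2) ⟨by linarith, by linarith⟩
        rw [← h'] at h2
        rcases min_lt_iff.1 h1 with h3 | h3
        · linarith
        · linarith
      · have h1 := quasi n m hn hm (x := x) (z := y) (y := c) h hxy h' hc2.le hcpos
        have h2 := hmax' x ⟨hx.1, by linarith⟩
        rw [min_eq_left h2] at h1
        exact h1
  · intro x y hx hxy hy hp
    have hymem : y ∈ Icc (1 / 2 : ℝ) 1 := ⟨by linarith, hy⟩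
    rcases hx.eq_or_lt with h | h
    · rw [← h]; exact hmax' y hymem
    · rcases hxy.eq_or_lt with h' | h'
      · rw [h']
      · have h1 := quasi n m hn hm (x := c) (z := x) (y := y) hc1 h h' hy hp
        rw [min_eq_right (hmax' y hymem)] at h1
        exact h1.le

/-- nonnegativity is an initial property -/
theorem S_nonneg_initial (n m : ℕ) {x y : ℝ} (hx : 1 / 2 < x) (hxy : x < y) (hy : y < 1)
    (h : 0 ≤ S n m y) : 0 ≤ S n m x := by
  have iff' : ∀ z, 0 < z → z < 1 → (0 ≤ S n m z ↔ u n m z ≤ 0) := by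
    intro z h0 h1
    have h2 := S_pos_iff n m (x := 1 - z) (by linarith) (by linarith)
    rw [S_one_sub] at h2
    have h3 : u n m (1 - z) = -u n m z := by
      unfold u; rw [sub_sub_cancel]; ring
    rw [h3] at h2
    constructor
    · intro h4
      by_contra h5
      push Not at h5
      have := h2.2 (by linarith)
      linarith
    · intro h4
      by_contra h5
      push Not at h5
      have := h2.1 (by linarith)
      linarith
  rw [iff' y (by linarith) hy] at h
  rw [iff' x (by linarith) (by linarith)]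
  by_contra hu
  push Not at hu
  have hc : ∀ z, 0 < z → z < 1 → ContinuousAt (u n m) z := fun z h0 h1 =>
    (hasDerivAt_u n m h0 h1).continuousAt
  obtain ⟨c, hc1, hc2⟩ := exists_hasDerivAt_eq_slope (u n m)
    (fun x => (m - n * w x) / (x * (1 - x))) hx
    (fun z hz => (hc z (by linarith [hz.1]) (by linarith [hz.2])).continuousWithinAt)
    (fun z hz => hasDerivAt_u n m (by linarith [hz.1]) (by linarith [hz.2]))
  obtain ⟨d, hd1, hd2⟩ := exists_hasDerivAt_eq_slope (u n m)
    (fun x => (m - n * w x) / (x * (1 - x))) hxy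
    (fun z hz => (hc z (by linarith [hz.1]) (by linarith [hz.2])).continuousWithinAt)
    (fun z hz => hasDerivAt_u n m (by linarith [hz.1]) (by linarith [hz.2]))
  rw [u_half, sub_zero] at hc2
  have p1 : 0 ≤ (m - n * w c) / (c * (1 - c)) := by
    rw [hc2]; exact div_nonneg hu.le (by linarith)
  have p2 : (m - n * w d) / (d * (1 - d)) < 0 := by
    rw [hd2]; exact div_neg_of_neg_of_pos (by linarith) (by linarith)
  have k1 : 0 < c * (1 - c) := mul_pos (by linarith [hc1.1]) (by linarith [hc1.2])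
  have k2 : 0 < d * (1 - d) := mul_pos (by linarith [hd1.1]) (by linarith [hd1.2])
  have q1 : 0 ≤ m - n * w c := by
    by_contra h
    push Not at h
    exact absurd p1 (not_le.2 (div_neg_of_neg_of_pos h k1))
  have q2 : m - n * w d < 0 := by
    by_contra h
    push Not at h
    exact absurd p2 (not_lt.2 (div_nonneg h k2.le))
  have hw := w_anti (a := c) (b := d) ⟨hc1.1.le, by linarith [hc1.2]⟩ ⟨by linarith [hd1.1], by linarith [hd1.2]⟩
    (by linarith [hc1.2, hd1.1])
  have : (n : ℝ) * w d ≤ n * w c := mul_le_mul_of_nonneg_left hw (Nat.cast_nonneg n)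
  linarith

/-! ### the antiderivative -/

/-- `(1-x)^(m+1) Σ_{j ≤ n} ((m+1) A x)^j / j!`, the tail `1 - F_n^{(m+1)}` -/
noncomputable def T (n m : ℕ) (x : ℝ) : ℝ :=
  (1 - x) ^ (m + 1) * ∑ j ∈ Finset.range (n + 1), ((m + 1) * A x) ^ j / j.factorial

/-- normalising constant -/
noncomputable def K (n m : ℕ) : ℝ := ((m : ℝ) + 1) ^ (n + 1) / n.factorial

theorem K_pos (n m : ℕ) : 0 < K n m := by unfold K; positivity

theorem hasDerivAt_T (n m : ℕ) {x : ℝ} (h1 : x < 1) :
    HasDerivAt (T n m) (-(K n m * G n m x)) x := by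
  induction n with
  | zero =>
    have h : T 0 m = fun x => (1 - x) ^ (m + 1) := by
      funext x; unfold T; simp
    rw [h]
    have := ((hasDerivAt_id x).const_sub 1).fun_pow (m + 1)
    refine this.congr_deriv ?_
    unfold K G
    simp
  | succ n ih =>
    have h : T (n + 1) m = fun x => T n m x +
        (1 - x) ^ (m + 1) * (((m + 1) * A x) ^ (n + 1) / (n + 1).factorial) := by
      funext x; unfold T; rw [Finset.sum_range_succ]; ring
    rw [h]
    have h2 := (((hasDerivAt_id x).const_sub 1).fun_pow (m + 1)).fun_mul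
      (((((hasDerivAt_A h1).const_mul ((m : ℝ) + 1))).fun_pow (n + 1)).div_const
        ((n + 1).factorial : ℝ))
    refine (ih.fun_add h2).congr_deriv ?_
    unfold K G
    have hx : 1 - x ≠ 0 := by linarith
    have hf : (n.factorial : ℝ) ≠ 0 := by exact_mod_cast Nat.factorial_ne_zero n
    rw [Nat.factorial_succ]
    push_cast
    simp only [id_eq, Nat.add_sub_cancel]
    rw [mul_pow, mul_pow]
    field_simp
    ring

theorem T_one (n m : ℕ) : T n m 1 = 0 := by unfold T; simp

theorem T_zero (n m : ℕ) : T n m 0 = 1 := by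
  unfold T
  rw [Finset.sum_range_succ', A_zero]
  simp

theorem continuousOn_T (n m : ℕ) : ContinuousOn (T n m) (Icc 0 1) := by
  have h : T n m = fun x => ∑ j ∈ Finset.range (n + 1),
      (((m : ℝ) + 1) ^ j / j.factorial) * G j (m + 1) x := by
    funext x; unfold T G
    rw [Finset.mul_sum]
    apply Finset.sum_congr rfl
    intro j _
    rw [mul_pow]; ring
  rw [h]
  apply continuousOn_finset_sum
  intro j _
  exact (continuousOn_G j (m + 1) (by omega)).const_mul _

theorem intervalIntegrable_G (n m : ℕ) (hm : 1 ≤ m) {a b : ℝ} (ha : 0 ≤ a) (ha' : a ≤ 1)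
    (hb : 0 ≤ b) (hb' : b ≤ 1) : IntervalIntegrable (G n m) volume a b := by
  apply ContinuousOn.intervalIntegrable
  apply (continuousOn_G n m hm).mono
  intro x hx
  rcases le_total a b with h | h
  · rw [uIcc_of_le h] at hx; exact ⟨by linarith [hx.1], by linarith [hx.2]⟩
  · rw [uIcc_of_ge h] at hx; exact ⟨by linarith [hx.1], by linarith [hx.2]⟩

theorem intervalIntegrable_S (n m : ℕ) (hm : 1 ≤ m) {a b : ℝ} (ha : 0 ≤ a) (ha' : a ≤ 1)
    (hb : 0 ≤ b) (hb' : b ≤ 1) : IntervalIntegrable (S n m) volume a b := by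
  apply ContinuousOn.intervalIntegrable
  apply (continuousOn_S n m hm).mono
  intro x hx
  rcases le_total a b with h | h
  · rw [uIcc_of_le h] at hx; exact ⟨by linarith [hx.1], by linarith [hx.2]⟩
  · rw [uIcc_of_ge h] at hx; exact ⟨by linarith [hx.1], by linarith [hx.2]⟩

theorem integral_G (n m : ℕ) (hm : 1 ≤ m) {a b : ℝ} (ha : 0 ≤ a) (hab : a ≤ b) (hb : b ≤ 1) :
    ∫ x in a..b, K n m * G n m x = T n m a - T n m b := by
  have h := intervalIntegral.integral_eq_sub_of_hasDerivAt_of_le (f := fun x => -T n m x)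
    (f' := fun x => K n m * G n m x) hab
    (((continuousOn_T n m).mono (Icc_subset_Icc ha hb)).neg)
    (fun x hx => by
      have := (hasDerivAt_T n m (x := x) (by linarith [hx.2])).fun_neg
      simpa using this)
    ((intervalIntegrable_G n m hm ha (by linarith) (by linarith) hb).const_mul _)
  rw [h]; ring

/-- `∫_α^1 s = T α + T (1-α) - 1` -/
theorem integral_S (n m : ℕ) (hm : 1 ≤ m) {a : ℝ} (ha : 0 ≤ a) (ha1 : a ≤ 1) :
    ∫ x in a..1, K n m * S n m x = T n m a + T n m (1 - a) - 1 := by
  have h1 : ∫ x in a..1, K n m * S n m x =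
      (∫ x in a..1, K n m * G n m x) - ∫ x in a..1, K n m * G n m (1 - x) := by
    rw [← intervalIntegral.integral_sub]
    · congr 1
      funext x
      unfold S; ring
    · exact (intervalIntegrable_G n m hm ha ha1 zero_le_one le_rfl).const_mul _
    · apply IntervalIntegrable.const_mul
      have := (intervalIntegrable_G n m hm (a := 1 - a) (b := 0) (by linarith) (by linarith)
        le_rfl zero_le_one).comp_sub_left 1
      simpa using this
  rw [h1, integral_G n m hm ha ha1 le_rfl,
    intervalIntegral.integral_comp_sub_left (fun x => K n m * G n m x) 1, sub_self,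
    integral_G n m hm le_rfl (by linarith) (by linarith), T_one, T_zero]
  ring

end Pool.Agent.R190.KR
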