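import Mathlib
import Pool.Agent.R190.KR.Shape2
import Pool.Agent.R190.KR.Quant

/-!
# The upper bounds
-/

set_option autoImplicit false

namespace Pool.Agent.R190.KR

open MeasureTheory ProbabilityTheory Set Filter Topology

namespace SymParent

variable {μ : Measure ℝ}

theorem exists_cdf_eq (h : SymParent μ) {c : ℝ} (hc : c ∈ Ico (1 / 2 : ℝ) 1) :
    ∃ t, mean μ ≤ t ∧ cdf μ t = c := by
  have := h.prob
  have h1 := (tendsto_cdf_atTop μ).eventually (lt_mem_nhds hc.2)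
  obtain ⟨b, hb⟩ := h1.exists
  have hmb : mean μ ≤ b := by
    by_contra hlt
    push Not at hlt
    have := monotone_cdf μ hlt.le
    rw [h.cdf_mean] at this
    linarith [hc.1]
  have h2 := intermediate_value_Icc hmb h.cont.continuousOn
  obtain ⟨t, ht, htc⟩ := h2 (show c ∈ Icc (cdf μ (mean μ)) (cdf μ b) by
    rw [h.cdf_mean]; exact ⟨hc.1, hb.le⟩)
  exact ⟨t, ht.1, htc⟩

theorem opt_le (h : SymParent μ) {φ : ℝ → ℝ} (hφ : Measurable φ) {B : ℝ}
    (hB : ∀ x ∈ Icc (0 : ℝ) 1, |φ x| ≤ B) (hodd : ∀ x ∈ Icc (0 : ℝ) 1, φ (1 - x) = -φ x)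
    {c : ℝ} (hc : c ∈ Ico (1 / 2 : ℝ) 1) (h1 : ∀ x ∈ Icc (1 / 2 : ℝ) c, 0 ≤ φ x)
    (h2 : ∀ x ∈ Icc c 1, φ x ≤ 0) (h3 : ∫ x in (1 / 2 : ℝ)..1, φ x ≤ 0) :
    ∫ t, (t - mean μ) * φ (cdf μ t) ∂μ ≤ 0 := by
  have := h.prob
  obtain ⟨tc, htc, hFc⟩ := h.exists_cdf_eq hc
  obtain ⟨ψ, hψ⟩ : ∃ ψ : ℝ → ℝ, ψ = fun x => if 1 / 2 ≤ x then φ x else φ (1 - x) := ⟨_, rfl⟩
  have hψm : Measurable ψ := by
    rw [hψ]
    exact Measurable.ite measurableSet_Ici hφ (hφ.comp (by fun_prop))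
  have hψB : ∀ x ∈ Icc (0 : ℝ) 1, |ψ x| ≤ B := by
    intro x hx
    rw [hψ]
    dsimp only
    split_ifs
    · exact hB x hx
    · exact hB _ ⟨by linarith [hx.2], by linarith [hx.1]⟩
  have hψ0 : ∀ x ∈ Icc (0 : ℝ) 1, x ≤ 1 / 2 → ψ x = φ (1 - x) := by
    intro x hx hx2
    rw [hψ]
    dsimp only
    split_ifs with h5
    · have : x = 1 / 2 := le_antisymm hx2 h5
      rw [this]; norm_num
    · rfl
  -- the case `t ≥ mean`
  have key : ∀ t, mean μ ≤ t → (t - mean μ) * φ (cdf μ t) ≤ (tc - mean μ) * φ (cdf μ t) := by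
    intro t ht
    have hF : 1 / 2 ≤ cdf μ t := by rw [← h.cdf_mean]; exact monotone_cdf μ ht
    have hF1 := cdf_le_one μ t
    rcases le_total t tc with h5 | h5
    · have h6 : cdf μ t ≤ c := by rw [← hFc]; exact monotone_cdf μ h5
      exact mul_le_mul_of_nonneg_right (by linarith) (h1 _ ⟨hF, h6⟩)
    · have h6 : c ≤ cdf μ t := by rw [← hFc]; exact monotone_cdf μ h5
      exact mul_le_mul_of_nonpos_right (by linarith) (h2 _ ⟨h6, hF1⟩)
  have pt : ∀ t, (t - mean μ) * φ (cdf μ t) ≤ (tc - mean μ) * ψ (cdf μ t) := by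
    intro t
    rcases le_total (mean μ) t with ht | ht
    · have hF : 1 / 2 ≤ cdf μ t := by rw [← h.cdf_mean]; exact monotone_cdf μ ht
      have : ψ (cdf μ t) = φ (cdf μ t) := by rw [hψ]; simp only [if_pos hF]
      rw [this]
      exact key t ht
    · have hF : cdf μ t ≤ 1 / 2 := by rw [← h.cdf_mean]; exact monotone_cdf μ ht
      have hmem : cdf μ t ∈ Icc (0 : ℝ) 1 := ⟨cdf_nonneg μ t, cdf_le_one μ t⟩
      rw [hψ0 _ hmem hF]
      have h5 := key (2 * mean μ - t) (by linarith)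
      rw [h.reflect] at h5
      have h6 := hodd _ hmem
      have h7 : (2 * mean μ - t - mean μ) * φ (1 - cdf μ t) = (t - mean μ) * φ (cdf μ t) := by
        rw [h6]; ring
      rw [h7] at h5
      exact h5
  have h4 : ∫ t, (t - mean μ) * φ (cdf μ t) ∂μ ≤ ∫ t, (tc - mean μ) * ψ (cdf μ t) ∂μ :=
    integral_mono (h.int_mul hφ hB) ((h.int_comp hψm hψB).const_mul _) pt
  refine h4.trans ?_
  rw [integral_const_mul, integral_comp_cdf h.cont hψm]
  apply mul_nonpos_of_nonneg_of_nonpos (by linarith)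
  rw [← integral_Ioc_eq_integral_Ioo, ← intervalIntegral.integral_of_le zero_le_one]
  have hint : ∀ a b : ℝ, 0 ≤ a → a ≤ b → b ≤ 1 → IntervalIntegrable ψ volume a b := by
    intro a b h0 h5 h6
    rw [intervalIntegrable_iff_integrableOn_Ioc_of_le h5]
    apply Measure.integrableOn_of_bounded (M := B) (by simp) hψm.aestronglyMeasurable
    filter_upwards [ae_restrict_mem measurableSet_Ioc] with x hx
    exact hψB x ⟨by linarith [hx.1], by linarith [hx.2]⟩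
  rw [← intervalIntegral.integral_add_adjacent_intervals
    (hint 0 (1 / 2) le_rfl (by norm_num) (by norm_num))
    (hint (1 / 2) 1 (by norm_num) (by norm_num) le_rfl)]
  have e1 : ∫ x in (0 : ℝ)..(1 / 2), ψ x = ∫ x in (1 / 2 : ℝ)..1, φ x := by
    have e2 : ∫ x in (0 : ℝ)..(1 / 2), ψ x = ∫ x in (0 : ℝ)..(1 / 2), φ (1 - x) := by
      apply intervalIntegral.integral_congr
      intro x hx
      rw [uIcc_of_le (by norm_num)] at hx
      exact hψ0 x ⟨hx.1, by linarith [hx.2]⟩ hx.2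
    rw [e2, intervalIntegral.integral_comp_sub_left (fun x => φ x) 1]
    norm_num
  have e3 : ∫ x in (1 / 2 : ℝ)..1, ψ x = ∫ x in (1 / 2 : ℝ)..1, φ x := by
    apply intervalIntegral.integral_congr
    intro x hx
    rw [uIcc_of_le (by norm_num)] at hx
    rw [hψ]
    simp only [if_pos hx.1]
  rw [e1, e3]
  linarith

/-- Cauchy-Schwarz -/
theorem cs (h : SymParent μ) {g : ℝ → ℝ} (hg : Measurable g) {B : ℝ}
    (hB : ∀ x ∈ Icc (0 : ℝ) 1, |g x| ≤ B) {V : ℝ} (hV : 0 < V)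
    (hV' : ∫ x in Ioo (0 : ℝ) 1, g x ^ 2 = V) :
    ∫ t, (t - mean μ) * g (cdf μ t) ∂μ ≤ sd μ * Real.sqrt V := by
  have := h.prob
  have hs := h.pos
  have hs2 : ∫ t, (t - mean μ) ^ 2 ∂μ = sd μ ^ 2 := by
    unfold sd
    rw [Real.sq_sqrt (integral_nonneg fun t => sq_nonneg _)]
  have ht : 0 < Real.sqrt V := Real.sqrt_pos.2 hV
  have ht2 : Real.sqrt V ^ 2 = V := Real.sq_sqrt hV.le
  generalize sd μ = σ at *
  generalize Real.sqrt V = τ at *
  have hg2 : Measurable fun x => g x ^ 2 := hg.pow_const 2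
  have hB2 : ∀ x ∈ Icc (0 : ℝ) 1, |g x ^ 2| ≤ B ^ 2 := by
    intro x hx
    rw [abs_pow]
    exact pow_le_pow_left₀ (abs_nonneg _) (hB x hx) 2
  have i1 := h.int_comp hg2 hB2
  have hpt : ∀ t, (t - mean μ) * g (cdf μ t) ≤
      τ / (2 * σ) * (t - mean μ) ^ 2 + σ / (2 * τ) * g (cdf μ t) ^ 2 := by
    intro t
    have h1 : τ / (2 * σ) * (t - mean μ) ^ 2 + σ / (2 * τ) * g (cdf μ t) ^ 2 -
        (t - mean μ) * g (cdf μ t) =
        (τ * (t - mean μ) - σ * g (cdf μ t)) ^ 2 / (2 * σ * τ) := by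
      field_simp
      ring
    have h2 : 0 ≤ (τ * (t - mean μ) - σ * g (cdf μ t)) ^ 2 / (2 * σ * τ) := by positivity
    linarith
  have h4 := integral_mono (h.int_mul hg hB)
    ((h.int_sq.const_mul (τ / (2 * σ))).add (i1.const_mul (σ / (2 * τ)))) hpt
  refine h4.trans ?_
  have h5 : ∫ t, (τ / (2 * σ) * (t - mean μ) ^ 2 + σ / (2 * τ) * g (cdf μ t) ^ 2) ∂μ =
      τ / (2 * σ) * σ ^ 2 + σ / (2 * τ) * τ ^ 2 := by
    rw [integral_add (h.int_sq.const_mul _) (i1.const_mul _), integral_const_mul,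
      integral_const_mul, hs2, integral_comp_cdf h.cont hg2, hV', ht2]
  have h6 : τ / (2 * σ) * σ ^ 2 + σ / (2 * τ) * τ ^ 2 = σ * τ := by
    field_simp
    norm_num
  exact le_of_eq (h5.trans h6)

end SymParent

end Pool.Agent.R190.KR
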