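import Mathlib
import Pool.Agent.R190.KR.Shape2

/-!
# The point `α`, the sign patterns and the truncated function
-/

set_option autoImplicit false

namespace Pool.Agent.R190.KR

open Real Set MeasureTheory

variable (n m : ℕ)

theorem lt_of_peak_le (hn : 1 ≤ n) (hm : 1 ≤ m) {c : ℝ} (hc : 1 / 2 < c)
    (hanti : ∀ x y, c ≤ x → x ≤ y → y ≤ 1 → 0 < S n m y → S n m y ≤ S n m x)
    {a : ℝ} (hca : c ≤ a) (ha : a < 1) (hpos : 0 < S n m a) :
    ∫ x in a..1, S n m x < (1 - a) * S n m a := by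
  have h := intervalIntegral.integral_lt_integral_of_continuousOn_of_le_of_exists_lt
    (f := S n m) (g := fun _ => S n m a) ha
    ((continuousOn_S n m hm).mono (Icc_subset_Icc (by linarith) le_rfl)) continuousOn_const
    (fun x hx => by
      rcases lt_or_ge 0 (S n m x) with h1 | h1
      · exact hanti a x hca hx.1.le hx.2 h1
      · exact h1.trans hpos.le)
    ⟨1, ⟨ha.le, le_rfl⟩, by rw [S_at_one n m hn hm]; exact hpos⟩
  simpa using h

theorem exists_pos_of_integral_pos (hm : 1 ≤ m)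
    (hI : 0 < ∫ x in (1 / 2 : ℝ)..1, S n m x) : ∃ x ∈ Icc (1 / 2 : ℝ) 1, 0 < S n m x := by
  by_contra hcon
  push Not at hcon
  have : ∫ x in (1 / 2 : ℝ)..1, S n m x ≤ ∫ x in (1 / 2 : ℝ)..1, (0 : ℝ) := by
    apply intervalIntegral.integral_mono_on (by norm_num)
      (intervalIntegrable_S n m hm (by norm_num) (by norm_num) (by norm_num) le_rfl)
      intervalIntegrable_const
    exact hcon
  simp at this
  linarith

theorem integral_S' (hm : 1 ≤ m) {a : ℝ} (ha : 0 ≤ a) (ha1 : a ≤ 1) :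
    K n m * ∫ x in a..1, S n m x = T n m a + T n m (1 - a) - 1 := by
  rw [← intervalIntegral.integral_const_mul, integral_S n m hm ha ha1]

theorem exists_alpha (hn : 1 ≤ n) (hm : 1 ≤ m) (hI : 0 < ∫ x in (1 / 2 : ℝ)..1, S n m x) :
    ∃ a ∈ Ioo (1 / 2 : ℝ) 1, 0 < S n m a ∧ (1 - a) * S n m a = ∫ x in a..1, S n m x := by
  have hK := K_pos n m
  obtain ⟨c, hc, hcpos, hmax, hmono, hanti⟩ :=
    exists_peak n m hn hm (exists_pos_of_integral_pos n m hm hI)
  have hcont : ContinuousOn (fun a => (1 - a) * (K n m * S n m a) - (T n m a + T n m (1 - a) - 1))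
      (Icc (1 / 2) c) := by
    have hsub : Icc (1 / 2) c ⊆ Icc (0 : ℝ) 1 := Icc_subset_Icc (by norm_num) hc.2.le
    apply ContinuousOn.sub
    · exact (by fun_prop : Continuous fun a : ℝ => 1 - a).continuousOn.mul
        (((continuousOn_S n m hm).mono hsub).const_mul _)
    · apply ContinuousOn.sub _ continuousOn_const
      apply ((continuousOn_T n m).mono hsub).add
      apply (continuousOn_T n m).comp (by fun_prop)
      intro x hx
      have := hsub hx
      exact ⟨by linarith [this.2], by linarith [this.1]⟩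
  have h := intermediate_value_Icc hc.1.le hcont
  have h0 : (0 : ℝ) ∈ Icc ((1 - 1 / 2) * (K n m * S n m (1 / 2)) -
      (T n m (1 / 2) + T n m (1 - 1 / 2) - 1)) ((1 - c) * (K n m * S n m c) -
        (T n m c + T n m (1 - c) - 1)) := by
    constructor
    · rw [S_half, ← integral_S' n m hm (by norm_num) (by norm_num)]
      have := mul_pos hK hI
      linarith
    · rw [← integral_S' n m hm (by linarith [hc.1]) hc.2.le]
      have h1 := lt_of_peak_le n m hn hm hc.1 hanti le_rfl hc.2 hcpos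
      have := mul_pos hK (sub_pos.2 h1)
      linarith
  obtain ⟨a, ha, ha0⟩ := h h0
  have ha1 : a ≤ 1 := ha.2.trans hc.2.le
  have ha1' : a < 1 := lt_of_le_of_lt ha.2 hc.2
  dsimp only at ha0
  rw [← integral_S' n m hm (by linarith [ha.1]) ha1] at ha0
  have heq : (1 - a) * S n m a = ∫ x in a..1, S n m x := by
    have : K n m * ((1 - a) * S n m a - ∫ x in a..1, S n m x) = 0 := by linarith
    rcases mul_eq_zero.1 this with h1 | h1
    · exact absurd h1 hK.ne'
    · linarith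
  have ha2 : 1 / 2 < a := by
    rcases ha.1.eq_or_lt with h1 | h1
    · rw [← h1, S_half, mul_zero] at heq
      rw [← heq] at hI
      exact absurd hI (lt_irrefl _)
    · exact h1
  refine ⟨a, ⟨ha2, ha1'⟩, ?_, heq⟩
  rcases ha.2.eq_or_lt with h1 | h1
  · rw [h1]; exact hcpos
  · exact S_pos_initial n m ha2 h1 hc.2 hcpos

theorem unique_alpha (hn : 1 ≤ n) (hm : 1 ≤ m) {a b : ℝ} (ha : a ∈ Ioo (1 / 2 : ℝ) 1)
    (hb : b ∈ Ioo (1 / 2 : ℝ) 1) (ha0 : 0 < S n m a) (hb0 : 0 < S n m b)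
    (ha' : (1 - a) * S n m a = ∫ x in a..1, S n m x)
    (hb' : (1 - b) * S n m b = ∫ x in b..1, S n m x) : a = b := by
  wlog hab : a < b generalizing a b
  · rcases lt_trichotomy a b with h | h | h
    · exact absurd h hab
    · exact h
    · exact (this hb ha hb0 ha0 hb' ha' h).symm
  exfalso
  obtain ⟨c, hc, hcpos, hmax, hmono, hanti⟩ :=
    exists_peak n m hn hm ⟨a, ⟨ha.1.le, ha.2.le⟩, ha0⟩
  have hbc : b < c := by
    by_contra h
    push Not at h
    have := lt_of_peak_le n m hn hm hc.1 hanti h hb.2 hb0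
    linarith
  have hi := fun x y (h0 : 0 ≤ x) (h1 : x ≤ 1) (h2 : 0 ≤ y) (h3 : y ≤ 1) =>
    intervalIntegrable_S n m hm (a := x) (b := y) h0 h1 h2 h3
  have h1 : ∫ x in a..1, S n m x = (∫ x in a..b, S n m x) + ∫ x in b..1, S n m x :=
    (intervalIntegral.integral_add_adjacent_intervals
      (hi a b (by linarith [ha.1]) ha.2.le (by linarith [hb.1]) hb.2.le)
      (hi b 1 (by linarith [hb.1]) hb.2.le zero_le_one le_rfl)).symm
  have h2 : (b - a) * S n m a ≤ ∫ x in a..b, S n m x := by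
    have : ∫ x in a..b, S n m a ≤ ∫ x in a..b, S n m x := by
      apply intervalIntegral.integral_mono_on hab.le intervalIntegrable_const
        (hi a b (by linarith [ha.1]) ha.2.le (by linarith [hb.1]) hb.2.le)
      intro x hx
      exact hmono.monotoneOn ⟨ha.1.le, by linarith⟩ ⟨by linarith [hx.1, ha.1], by linarith [hx.2]⟩
        hx.1
    simpa using this
  have h3 : S n m a < S n m b := hmono ⟨ha.1.le, by linarith⟩ ⟨hb.1.le, hbc.le⟩ hab
  have h4 : (1 - b) * S n m a < (1 - b) * S n m b :=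
    mul_lt_mul_of_pos_left h3 (by linarith [hb.2])
  rw [h1, ← hb'] at ha'
  linarith

theorem pattern_alpha (hn : 1 ≤ n) (hm : 1 ≤ m) {a : ℝ} (ha : a ∈ Ioo (1 / 2 : ℝ) 1)
    (ha0 : 0 < S n m a) (ha' : (1 - a) * S n m a = ∫ x in a..1, S n m x) :
    StrictMonoOn (S n m) (Icc (1 / 2) a) ∧
      ∃ c ∈ Ioo a 1, (∀ x ∈ Icc a c, S n m a ≤ S n m x) ∧ ∀ x ∈ Icc c 1, S n m x ≤ S n m a := by
  obtain ⟨p, hp, hppos, hmax, hmono, hanti⟩ :=
    exists_peak n m hn hm ⟨a, ⟨ha.1.le, ha.2.le⟩, ha0⟩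
  have hap : a < p := by
    by_contra h
    push Not at h
    have := lt_of_peak_le n m hn hm hp.1 hanti h ha.2 ha0
    linarith
  refine ⟨hmono.mono (Icc_subset_Icc le_rfl hap.le), ?_⟩
  have hSap : S n m a < S n m p := hmono ⟨ha.1.le, hap.le⟩ ⟨hp.1.le, le_rfl⟩ hap
  have hcont : ContinuousOn (S n m) (Icc p 1) :=
    (continuousOn_S n m hm).mono (Icc_subset_Icc (by linarith [hp.1]) le_rfl)
  obtain ⟨c, hc, hcS⟩ := intermediate_value_Icc' hp.2.le hcont
    (show S n m a ∈ Icc (S n m 1) (S n m p) by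
      rw [S_at_one n m hn hm]; exact ⟨ha0.le, hSap.le⟩)
  have hc1 : c < 1 := by
    rcases hc.2.eq_or_lt with h | h
    · rw [h, S_at_one n m hn hm] at hcS; linarith
    · exact h
  have hac : a < c := hap.trans_le hc.1
  refine ⟨c, ⟨hac, hc1⟩, ?_, ?_⟩
  · intro x hx
    rcases hx.1.eq_or_lt with h | h
    · rw [← h]
    · rcases hx.2.eq_or_lt with h' | h'
      · rw [h', hcS]
      · have := quasi n m hn hm ha.1 h h' hc1.le (by rw [hcS]; exact ha0)
        rw [hcS, min_self] at this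
        exact this.le
  · intro x hx
    rcases hx.1.eq_or_lt with h | h
    · rw [← h, hcS]
    · by_contra hcon
      push Not at hcon
      have := quasi n m hn hm ha.1 hac h hx.2 (ha0.trans hcon)
      rw [hcS, min_eq_left hcon.le] at this
      exact absurd this (lt_irrefl _)

theorem pattern_zero (hn : 1 ≤ n) (hm : 1 ≤ m) (hI : ∫ x in (1 / 2 : ℝ)..1, S n m x ≤ 0) :
    ∃ c ∈ Ico (1 / 2 : ℝ) 1, (∀ x ∈ Icc (1 / 2 : ℝ) c, 0 ≤ S n m x) ∧
      ∀ x ∈ Icc c 1, S n m x ≤ 0 := by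
  by_cases hcase : ∀ x ∈ Icc (1 / 2 : ℝ) 1, S n m x ≤ 0
  · refine ⟨1 / 2, ⟨le_rfl, by norm_num⟩, ?_, hcase⟩
    intro x hx
    have : x = 1 / 2 := le_antisymm hx.2 hx.1
    rw [this, S_half]
  push Not at hcase
  obtain ⟨x0, hx0, hx0p⟩ := hcase
  have hx1 : 1 / 2 < x0 := by
    rcases hx0.1.eq_or_lt with h | h
    · rw [← h, S_half] at hx0p; exact absurd hx0p (lt_irrefl _)
    · exact h
  have hx2 : x0 < 1 := by
    rcases hx0.2.eq_or_lt with h | h
    · rw [h, S_at_one n m hn hm] at hx0p; exact absurd hx0p (lt_irrefl _)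
    · exact h
  have hcont : ContinuousOn (S n m) (Icc (1 / 2 : ℝ) 1) :=
    (continuousOn_S n m hm).mono (Icc_subset_Icc (by norm_num) le_rfl)
  obtain ⟨y0, hy0, hy0n⟩ : ∃ y ∈ Ioc (1 / 2 : ℝ) 1, S n m y < 0 := by
    by_contra hcon
    push Not at hcon
    have := intervalIntegral.integral_pos (by norm_num : (1 / 2 : ℝ) < 1) hcont hcon
      ⟨x0, hx0, hx0p⟩
    linarith
  have hy1 : y0 < 1 := by
    rcases hy0.2.eq_or_lt with h | h
    · rw [h, S_at_one n m hn hm] at hy0n; exact absurd hy0n (lt_irrefl _)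
    · exact h
  have hxy : x0 < y0 := by
    rcases lt_trichotomy x0 y0 with h | h | h
    · exact h
    · rw [h] at hx0p; linarith
    · have := S_pos_initial n m hy0.1 h hx2 hx0p
      linarith
  obtain ⟨c, hc, hcS⟩ := intermediate_value_Icc' hxy.le
    (hcont.mono (Icc_subset_Icc hx1.le hy1.le)) (show (0 : ℝ) ∈ Icc (S n m y0) (S n m x0) from
      ⟨hy0n.le, hx0p.le⟩)
  have hc0 : 1 / 2 < c := by linarith [hc.1]
  have hc1 : c < 1 := by linarith [hc.2]
  refine ⟨c, ⟨hc0.le, hc1⟩, ?_, ?_⟩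
  · intro x hx
    rcases hx.1.eq_or_lt with h | h
    · rw [← h, S_half]
    · rcases hx.2.eq_or_lt with h' | h'
      · rw [h', hcS]
      · exact S_nonneg_initial n m h h' hc1 hcS.ge
  · intro x hx
    rcases hx.1.eq_or_lt with h | h
    · rw [← h, hcS]
    · rcases hx.2.eq_or_lt with h' | h'
      · rw [h', S_at_one n m hn hm]
      · by_contra hcon
        push Not at hcon
        have := S_pos_initial n m hc0 h h' hcon
        linarith

/-! ### the truncated function -/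

/-- clamp to `[1-a, a]` -/
noncomputable def clamp (a x : ℝ) : ℝ := max (1 - a) (min x a)

theorem clamp_of_mem {a x : ℝ} (h1 : 1 - a ≤ x) (h2 : x ≤ a) : clamp a x = x := by
  unfold clamp; rw [min_eq_left h2, max_eq_right h1]

theorem clamp_of_ge {a x : ℝ} (ha : 1 / 2 ≤ a) (h2 : a ≤ x) : clamp a x = a := by
  unfold clamp; rw [min_eq_right h2, max_eq_right (by linarith)]

theorem clamp_of_le {a x : ℝ} (ha : 1 / 2 ≤ a) (h2 : x ≤ 1 - a) : clamp a x = 1 - a := by
  unfold clamp; rw [min_eq_left (by linarith), max_eq_left h2]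

theorem clamp_mem {a : ℝ} (ha : 1 / 2 ≤ a) (x : ℝ) : clamp a x ∈ Icc (1 - a) a :=
  ⟨le_max_left _ _, max_le (by linarith) (min_le_right _ _)⟩

theorem clamp_mono (a : ℝ) : Monotone (clamp a) := by
  intro x y h
  exact max_le_max le_rfl (min_le_min h le_rfl)

theorem clamp_one_sub {a : ℝ} (ha : 1 / 2 ≤ a) (x : ℝ) : clamp a (1 - x) = 1 - clamp a x := by
  rcases le_total a x with h | h
  · rw [clamp_of_ge ha h, clamp_of_le ha (by linarith)]
  · rcases le_total x (1 - a) with h' | h'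
    · rw [clamp_of_le ha h', clamp_of_ge ha (by linarith)]; ring
    · rw [clamp_of_mem h' h, clamp_of_mem (by linarith) (by linarith)]

/-- the truncated function -/
noncomputable def hatS (a x : ℝ) : ℝ := S n m (clamp a x)

theorem measurable_hatS (a : ℝ) : Measurable (hatS n m a) := by
  unfold hatS clamp
  exact (measurable_S n m).comp (by fun_prop)

theorem hatS_one_sub {a : ℝ} (ha : 1 / 2 ≤ a) (x : ℝ) : hatS n m a (1 - x) = -hatS n m a x := by
  unfold hatS
  rw [clamp_one_sub ha, S_one_sub]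

theorem S_monotoneOn {a : ℝ} (ha : 1 / 2 ≤ a) (hm' : StrictMonoOn (S n m) (Icc (1 / 2) a)) :
    MonotoneOn (S n m) (Icc (1 - a) a) := by
  have hm := hm'.monotoneOn
  have h0 : ∀ x ∈ Icc (1 / 2 : ℝ) a, 0 ≤ S n m x := by
    intro x hx
    rw [← S_half n m]
    exact hm ⟨le_rfl, ha⟩ hx hx.1
  intro x hx y hy hxy
  rcases le_total (1 / 2) x with h | h
  · exact hm ⟨h, hx.2⟩ ⟨h.trans hxy, hy.2⟩ hxy
  · have hx' := h0 (1 - x) ⟨by linarith, by linarith [hx.1]⟩
    rw [S_one_sub] at hx'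
    rcases le_total (1 / 2) y with h' | h'
    · have := h0 y ⟨h', hy.2⟩
      linarith
    · have := hm (a := 1 - y) (b := 1 - x) ⟨by linarith, by linarith [hy.1]⟩
        ⟨by linarith, by linarith [hx.1]⟩ (by linarith)
      rw [S_one_sub, S_one_sub] at this
      linarith

theorem hatS_mono {a : ℝ} (ha : 1 / 2 ≤ a) (hm' : StrictMonoOn (S n m) (Icc (1 / 2) a)) :
    Monotone (hatS n m a) := by
  intro x y hxy
  exact S_monotoneOn n m ha hm' (clamp_mem ha x) (clamp_mem ha y) (clamp_mono a hxy)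

theorem exists_bound_S (hm : 1 ≤ m) : ∃ B, ∀ x ∈ Icc (0 : ℝ) 1, |S n m x| ≤ B := by
  obtain ⟨B, hB⟩ := isCompact_Icc.exists_bound_of_continuousOn (continuousOn_S n m hm)
  exact ⟨B, hB⟩

theorem exists_bound_G (hm : 1 ≤ m) : ∃ B, ∀ x ∈ Icc (0 : ℝ) 1, |G n m x| ≤ B := by
  obtain ⟨B, hB⟩ := isCompact_Icc.exists_bound_of_continuousOn (continuousOn_G n m hm)
  exact ⟨B, hB⟩

theorem hatS_bound {a : ℝ} (ha : a ∈ Ioo (1 / 2 : ℝ) 1) {B : ℝ}
    (hB : ∀ x ∈ Icc (0 : ℝ) 1, |S n m x| ≤ B) (x : ℝ) : |hatS n m a x| ≤ B := by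
  have := clamp_mem ha.1.le x
  exact hB _ ⟨by linarith [this.1, ha.2], by linarith [this.2, ha.2]⟩

end Pool.Agent.R190.KR
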