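import Mathlib
import Pool.Agent.R190.KR.Quant

/-!
# Laws of `g(U)`
-/

set_option autoImplicit false

namespace Pool.Agent.R190.KR

open MeasureTheory ProbabilityTheory Set Filter Topology

theorem map_reflect_unif : (volume.restrict (Ioo (0 : ℝ) 1)).map (fun x => 1 - x) =
    volume.restrict (Ioo (0 : ℝ) 1) := by
  have h := (volume.measurePreserving_sub_left (1 : ℝ)).restrict_preimage
    (measurableSet_Ioo (a := (0 : ℝ)) (b := 1))
  have h2 : (fun x : ℝ => 1 - x) ⁻¹' Ioo 0 1 = Ioo 0 1 := by
    ext x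
    simp only [mem_preimage, mem_Ioo]
    constructor <;> rintro ⟨h1, h2⟩ <;> constructor <;> linarith
  rw [h2] at h
  exact h.map_eq

theorem integral_reflect_unif (f : ℝ → ℝ) (hf : Measurable f) :
    ∫ x in Ioo (0 : ℝ) 1, f (1 - x) = ∫ x in Ioo (0 : ℝ) 1, f x := by
  conv_rhs => rw [← map_reflect_unif]
  rw [integral_map (by fun_prop) hf.aestronglyMeasurable]

section
variable {g : ℝ → ℝ} (hgm : Measurable g) (hmono : StrictMonoOn g (Ioo 0 1)) {B : ℝ}
  (hB : ∀ x ∈ Ioo (0 : ℝ) 1, |g x| ≤ B) (hodd : ∀ x ∈ Ioo (0 : ℝ) 1, g (1 - x) = -g x)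

include hgm in
theorem prob_map : IsProbabilityMeasure ((volume.restrict (Ioo (0 : ℝ) 1)).map g) :=
  Measure.isProbabilityMeasure_map hgm.aemeasurable

include hgm hmono in
theorem cont_map : Continuous (cdf ((volume.restrict (Ioo (0 : ℝ) 1)).map g)) := by
  have := prob_map hgm
  apply continuous_cdf_of_noAtoms
  intro t
  rw [Measure.map_apply hgm (measurableSet_singleton t), Measure.restrict_apply' measurableSet_Ioo]
  apply Set.Subsingleton.measure_zero
  rintro x ⟨hx1, hx2⟩ y ⟨hy1, hy2⟩
  exact hmono.injOn hx2 hy2 (by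
    have h1 : g x = t := hx1
    have h2 : g y = t := hy1
    rw [h1, h2])

include hgm hmono in
theorem cdf_map_apply {x : ℝ} (hx : x ∈ Ioo (0 : ℝ) 1) :
    cdf ((volume.restrict (Ioo (0 : ℝ) 1)).map g) (g x) = x := by
  have := prob_map hgm
  rw [cdf_eq_real, Measure.real, Measure.map_apply hgm measurableSet_Iic,
    Measure.restrict_apply' measurableSet_Ioo]
  have : g ⁻¹' Iic (g x) ∩ Ioo 0 1 = Ioc 0 x := by
    ext y
    simp only [mem_inter_iff, mem_preimage, mem_Iic, mem_Ioo, mem_Ioc]
    constructor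
    · rintro ⟨h1, h2⟩
      exact ⟨h2.1, (hmono.le_iff_le h2 hx).1 h1⟩
    · rintro ⟨h1, h2⟩
      have hy : y ∈ Ioo (0 : ℝ) 1 := ⟨h1, by linarith [hx.2]⟩
      exact ⟨(hmono.le_iff_le hy hx).2 h2, hy⟩
  rw [this, Real.volume_Ioc, sub_zero, ENNReal.toReal_ofReal hx.1.le]

include hgm hmono in
theorem quantile_map_integral {f : ℝ → ℝ} (hf : Measurable f) :
    ∫ x in Ioo (0 : ℝ) 1, quantile ((volume.restrict (Ioo (0 : ℝ) 1)).map g) x * f x =
      ∫ x in Ioo (0 : ℝ) 1, g x * f x := by
  have := prob_map hgm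
  have hc := cont_map hgm hmono
  rw [integral_quantile hc hf, integral_map hgm.aemeasurable]
  · apply integral_congr_ae
    filter_upwards [ae_restrict_mem measurableSet_Ioo] with x hx
    rw [cdf_map_apply hgm hmono hx]
  · exact (measurable_id.mul (hf.comp hc.measurable)).aestronglyMeasurable

include hgm hodd in
theorem mean_map : mean ((volume.restrict (Ioo (0 : ℝ) 1)).map g) = 0 := by
  unfold mean
  rw [integral_map hgm.aemeasurable (by fun_prop)]
  have h1 := integral_reflect_unif g hgm
  have h2 : ∫ x in Ioo (0 : ℝ) 1, g (1 - x) = ∫ x in Ioo (0 : ℝ) 1, -g x := by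
    apply setIntegral_congr_fun measurableSet_Ioo
    intro x hx
    exact hodd x hx
  rw [integral_neg] at h2
  linarith

include hgm hodd in
theorem sd_map : sd ((volume.restrict (Ioo (0 : ℝ) 1)).map g) =
    Real.sqrt (∫ x in Ioo (0 : ℝ) 1, g x ^ 2) := by
  unfold sd
  rw [mean_map hgm hodd, integral_map hgm.aemeasurable (by fun_prop)]
  simp

include hgm hmono hB hodd in
theorem integral_sq_pos : 0 < ∫ x in Ioo (0 : ℝ) 1, g x ^ 2 := by
  have hint : Integrable (fun x => g x ^ 2) (volume.restrict (Ioo (0 : ℝ) 1)) := by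
    apply Measure.integrableOn_of_bounded (M := B ^ 2) (by simp)
      (hgm.pow_const 2).aestronglyMeasurable
    filter_upwards [ae_restrict_mem measurableSet_Ioo] with x hx
    rw [Real.norm_eq_abs, abs_pow]
    exact pow_le_pow_left₀ (abs_nonneg _) (hB x hx) 2
  rw [integral_pos_iff_support_of_nonneg (fun x => sq_nonneg _) hint]
  have hhalf : g (1 / 2) = 0 := by
    have := hodd (1 / 2) ⟨by norm_num, by norm_num⟩
    norm_num at this
    linarith
  have hsub : Ioo (1 / 2 : ℝ) 1 ⊆ Function.support (fun x => g x ^ 2) := by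
    intro x hx
    have h1 : g (1 / 2) < g x := hmono ⟨by norm_num, by norm_num⟩ ⟨by linarith [hx.1], hx.2⟩ hx.1
    rw [hhalf] at h1
    simp only [Function.mem_support]
    positivity
  refine lt_of_lt_of_le ?_ (measure_mono hsub)
  rw [Measure.restrict_apply' measurableSet_Ioo]
  have : Ioo (1 / 2 : ℝ) 1 ∩ Ioo 0 1 = Ioo (1 / 2) 1 := by
    apply inter_eq_left.2
    exact Ioo_subset_Ioo (by norm_num) le_rfl
  rw [this, Real.volume_Ioo]
  norm_num

include hgm hmono hB hodd in
theorem symParent_map : SymParent ((volume.restrict (Ioo (0 : ℝ) 1)).map g) where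
  prob := prob_map hgm
  cont := cont_map hgm hmono
  sq := by
    have := prob_map hgm
    apply MemLp.of_bound measurable_id.aestronglyMeasurable B
    rw [ae_map_iff hgm.aemeasurable (measurableSet_le (by fun_prop) measurable_const)]
    filter_upwards [ae_restrict_mem measurableSet_Ioo] with x hx
    exact hB x hx
  pos := by
    rw [sd_map hgm hodd]
    exact Real.sqrt_pos.2 (integral_sq_pos hgm hmono hB hodd)
  symm := by
    rw [mean_map hgm hodd, Measure.map_map (by fun_prop) hgm]
    have h1 : ((fun t => 2 * (0 : ℝ) - t) ∘ g) =ᵐ[volume.restrict (Ioo (0 : ℝ) 1)]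
        (g ∘ fun x => 1 - x) := by
      filter_upwards [ae_restrict_mem measurableSet_Ioo] with x hx
      simp only [Function.comp_apply]
      rw [hodd x hx]; ring
    rw [Measure.map_congr h1, ← Measure.map_map hgm (by fun_prop), map_reflect_unif]

include hgm hodd in
/-- integration against an odd function only sees the odd part -/
theorem integral_odd_mul {f : ℝ → ℝ} (hf : Measurable f) 
    (h1 : IntegrableOn (fun x => g x * f x) (Ioo 0 1)) :
    ∫ x in Ioo (0 : ℝ) 1, g x * f x =
      1 / 2 * ∫ x in Ioo (0 : ℝ) 1, g x * (f x - f (1 - x)) := by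
  have h2 := integral_reflect_unif (fun x => g x * f x) (hgm.mul hf)
  have h3 : ∫ x in Ioo (0 : ℝ) 1, g (1 - x) * f (1 - x) =
      ∫ x in Ioo (0 : ℝ) 1, -(g x * f (1 - x)) := by
    apply setIntegral_congr_fun measurableSet_Ioo
    intro x hx
    dsimp only
    rw [hodd x hx]; ring
  have h4 : IntegrableOn (fun x => g x * f (1 - x)) (Ioo 0 1) := by
    have h5 : Integrable (fun x => g (1 - x) * f (1 - x)) (volume.restrict (Ioo (0 : ℝ) 1)) := by
      have h6 : Integrable (fun x => g x * f x)
          ((volume.restrict (Ioo (0 : ℝ) 1)).map (fun x => 1 - x)) := by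
        rw [map_reflect_unif]; exact h1
      exact h6.comp_measurable (by fun_prop)
    have h7 := h5.neg
    refine h7.congr ?_
    filter_upwards [ae_restrict_mem measurableSet_Ioo] with x hx
    simp only [Pi.neg_apply]
    rw [hodd x hx]; ring
  have h8 : ∫ x in Ioo (0 : ℝ) 1, g x * (f x - f (1 - x)) =
      (∫ x in Ioo (0 : ℝ) 1, g x * f x) - ∫ x in Ioo (0 : ℝ) 1, g x * f (1 - x) := by
    rw [← integral_sub h1 h4]
    congr 1
    funext x
    ring
  rw [h8]
  rw [integral_neg] at h3
  linarith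

end

end Pool.Agent.R190.KR
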