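import Mathlib
import Pool.Agent.R190.KR.Defs
import Pool.Agent.R190.KR.Shape3
import Pool.Agent.R190.KR.Opt
import Pool.Agent.R190.KR.Sharp

/-!
# The sharp bounds
-/

set_option autoImplicit false

namespace Pool.Agent.R190.KR

open MeasureTheory ProbabilityTheory Set Filter Topology

variable (n m : ℕ)

theorem recDens_eq (x : ℝ) : recDens (m + 1) n x = K n m * G n m x := by
  unfold recDens K G A
  rw [Nat.add_sub_cancel]
  push_cast
  ring

theorem sfun_eq (x : ℝ) : sfun (m + 1) n x = K n m * S n m x := by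
  unfold sfun S
  rw [recDens_eq, recDens_eq]
  ring

theorem recTail_eq (x : ℝ) : recTail (m + 1) n x = T n m x := by
  unfold recTail T A
  push_cast
  rfl

theorem measurable_recDens (k : ℕ) : Measurable (recDens k n) := by
  unfold recDens
  fun_prop

theorem integral_recDens (hm : 1 ≤ m) : ∫ x in Ioo (0 : ℝ) 1, recDens (m + 1) n x = 1 := by
  rw [← integral_Ioc_eq_integral_Ioo, ← intervalIntegral.integral_of_le zero_le_one]
  have : ∀ x, recDens (m + 1) n x = K n m * G n m x := recDens_eq n m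
  simp only [this]
  rw [integral_G n m hm le_rfl zero_le_one le_rfl, T_zero, T_one, sub_zero]

/-- normalised mean in terms of `S` -/
theorem recMean_sub (hm : 1 ≤ m) {μ : Measure ℝ} (h : SymParent μ) :
    recMean (m + 1) n μ - mean μ = K n m / 2 * ∫ t, (t - mean μ) * S n m (cdf μ t) ∂μ := by
  obtain ⟨B, hB⟩ := exists_bound_G n m hm
  unfold recMean
  rw [intervalIntegral.integral_of_le zero_le_one, integral_Ioc_eq_integral_Ioo]
  rw [h.integral_id_mul (measurable_recDens n (m + 1)) (B := K n m * B) _ (integral_recDens n m hm)]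
  · rw [← integral_const_mul, ← integral_const_mul]
    congr 1
    funext t
    unfold S
    rw [recDens_eq, recDens_eq]
    ring
  · intro x hx
    rw [recDens_eq, abs_mul, abs_of_pos (K_pos n m)]
    exact mul_le_mul_of_nonneg_left (hB x hx) (K_pos n m).le

theorem even_integral {q : ℝ → ℝ} (hq : ∀ x ∈ Icc (0 : ℝ) 1, q (1 - x) = q x)
    (hi : ∀ a b : ℝ, 0 ≤ a → a ≤ b → b ≤ 1 → IntervalIntegrable q volume a b) :
    ∫ x in Ioo (0 : ℝ) 1, q x = 2 * ∫ x in (1 / 2 : ℝ)..1, q x := by
  rw [← integral_Ioc_eq_integral_Ioo, ← intervalIntegral.integral_of_le zero_le_one,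
    ← intervalIntegral.integral_add_adjacent_intervals
      (hi 0 (1 / 2) le_rfl (by norm_num) (by norm_num))
      (hi (1 / 2) 1 (by norm_num) (by norm_num) le_rfl)]
  have e2 : ∫ x in (0 : ℝ)..(1 / 2), q x = ∫ x in (0 : ℝ)..(1 / 2), q (1 - x) := by
    apply intervalIntegral.integral_congr
    intro x hx
    rw [uIcc_of_le (by norm_num)] at hx
    exact (hq x ⟨hx.1, by linarith [hx.2]⟩).symm
  rw [e2, intervalIntegral.integral_comp_sub_left (fun x => q x) 1]
  norm_num
  ring

theorem ii_of_bound {q : ℝ → ℝ} (hq : Measurable q) {B : ℝ}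
    (hB : ∀ x ∈ Icc (0 : ℝ) 1, |q x| ≤ B) (a b : ℝ) (h0 : 0 ≤ a) (h5 : a ≤ b) (h6 : b ≤ 1) :
    IntervalIntegrable q volume a b := by
  rw [intervalIntegrable_iff_integrableOn_Ioc_of_le h5]
  apply Measure.integrableOn_of_bounded (M := B) (by simp) hq.aestronglyMeasurable
  filter_upwards [ae_restrict_mem measurableSet_Ioc] with x hx
  exact hB x ⟨by linarith [hx.1], by linarith [hx.2]⟩

theorem ion_of_bound {q : ℝ → ℝ} (hq : Measurable q) {B : ℝ}
    (hB : ∀ x ∈ Icc (0 : ℝ) 1, |q x| ≤ B) : IntegrableOn q (Ioo 0 1) := by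
  apply Measure.integrableOn_of_bounded (M := B) (by simp) hq.aestronglyMeasurable
  filter_upwards [ae_restrict_mem measurableSet_Ioo] with x hx
  exact hB x ⟨hx.1.le, hx.2.le⟩

/-- the mean square of the truncated function, halved -/
noncomputable def W (a : ℝ) : ℝ := (∫ x in (1 / 2 : ℝ)..a, S n m x ^ 2) + (1 - a) * S n m a ^ 2

theorem W_pos {a : ℝ} (ha : a ∈ Ioo (1 / 2 : ℝ) 1) (ha0 : 0 < S n m a) : 0 < W n m a := by
  unfold W
  have h1 : 0 ≤ ∫ x in (1 / 2 : ℝ)..a, S n m x ^ 2 :=
    intervalIntegral.integral_nonneg ha.1.le fun x _ => sq_nonneg _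
  have h2 : 0 < (1 - a) * S n m a ^ 2 := mul_pos (by linarith [ha.2]) (by positivity)
  linarith

theorem integral_hatS_sq (hm : 1 ≤ m) {a : ℝ} (ha : a ∈ Ioo (1 / 2 : ℝ) 1) :
    ∫ x in Ioo (0 : ℝ) 1, hatS n m a x ^ 2 = 2 * W n m a := by
  obtain ⟨B, hB⟩ := exists_bound_S n m hm
  have hb := hatS_bound n m ha hB
  have hi := ii_of_bound (q := fun x => hatS n m a x ^ 2) ((measurable_hatS n m a).pow_const 2)
    (B := B ^ 2) (fun x _ => by
      rw [abs_pow]; exact pow_le_pow_left₀ (abs_nonneg _) (hb x) 2)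
  rw [even_integral (fun x _ => by rw [hatS_one_sub n m ha.1.le]; ring) hi,
    ← intervalIntegral.integral_add_adjacent_intervals (hi (1 / 2) a (by norm_num) ha.1.le ha.2.le)
      (hi a 1 (by linarith [ha.1]) ha.2.le le_rfl)]
  unfold W
  congr 2
  · apply intervalIntegral.integral_congr
    intro x hx
    rw [uIcc_of_le ha.1.le] at hx
    dsimp only
    unfold hatS
    rw [clamp_of_mem (by linarith [hx.1, ha.1]) hx.2]
  · have : ∫ x in a..1, hatS n m a x ^ 2 = ∫ x in a..1, S n m a ^ 2 := by
      apply intervalIntegral.integral_congr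
      intro x hx
      rw [uIcc_of_le ha.2.le] at hx
      dsimp only
      unfold hatS
      rw [clamp_of_ge ha.1.le hx.1]
    rw [this]; simp

theorem integral_hatS_mul_S (hm : 1 ≤ m) {a : ℝ} (ha : a ∈ Ioo (1 / 2 : ℝ) 1)
    (ha' : (1 - a) * S n m a = ∫ x in a..1, S n m x) :
    ∫ x in Ioo (0 : ℝ) 1, hatS n m a x * S n m x = 2 * W n m a := by
  obtain ⟨B, hB⟩ := exists_bound_S n m hm
  have hb := hatS_bound n m ha hB
  have hi := ii_of_bound (q := fun x => hatS n m a x * S n m x)
    ((measurable_hatS n m a).mul (measurable_S n m))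
    (B := B * B) (fun x hx => by
      rw [abs_mul]
      exact mul_le_mul (hb x) (hB x hx) (abs_nonneg _) ((abs_nonneg _).trans (hb x)))
  rw [even_integral (fun x _ => by rw [hatS_one_sub n m ha.1.le, S_one_sub]; ring) hi,
    ← intervalIntegral.integral_add_adjacent_intervals (hi (1 / 2) a (by norm_num) ha.1.le ha.2.le)
      (hi a 1 (by linarith [ha.1]) ha.2.le le_rfl)]
  unfold W
  congr 2
  · apply intervalIntegral.integral_congr
    intro x hx
    rw [uIcc_of_le ha.1.le] at hx
    dsimp only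
    unfold hatS
    rw [clamp_of_mem (by linarith [hx.1, ha.1]) hx.2]
    ring
  · have : ∫ x in a..1, hatS n m a x * S n m x = ∫ x in a..1, S n m a * S n m x := by
      apply intervalIntegral.integral_congr
      intro x hx
      rw [uIcc_of_le ha.2.le] at hx
      dsimp only
      unfold hatS
      rw [clamp_of_ge ha.1.le hx.1]
    rw [this, intervalIntegral.integral_const_mul, ← ha']
    ring

/-- upper bound, second case -/
theorem upper_two (hn : 1 ≤ n) (hm : 1 ≤ m) {a : ℝ} (ha : a ∈ Ioo (1 / 2 : ℝ) 1)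
    (ha0 : 0 < S n m a) (ha' : (1 - a) * S n m a = ∫ x in a..1, S n m x)
    {μ : Measure ℝ} (h : SymParent μ) :
    ∫ t, (t - mean μ) * S n m (cdf μ t) ∂μ ≤ sd μ * Real.sqrt (2 * W n m a) := by
  obtain ⟨B, hB⟩ := exists_bound_S n m hm
  have hb := hatS_bound n m ha hB
  obtain ⟨hmono, c, hc, hc1, hc2⟩ := pattern_alpha n m hn hm ha ha0 ha'
  have hms := measurable_S n m
  have hmh := measurable_hatS n m a
  have hat_eq : ∀ x ∈ Icc (1 / 2 : ℝ) a, hatS n m a x = S n m x := by
    intro x hx
    unfold hatS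
    rw [clamp_of_mem (by linarith [hx.1, ha.1]) hx.2]
  have hat_eq' : ∀ x, a ≤ x → hatS n m a x = S n m a := by
    intro x hx
    unfold hatS
    rw [clamp_of_ge ha.1.le hx]
  have hBd : ∀ x ∈ Icc (0 : ℝ) 1, |S n m x - hatS n m a x| ≤ B + B := by
    intro x hx
    exact (abs_sub _ _).trans (add_le_add (hB x hx) (hb x))
  have hi := ii_of_bound (q := fun x => S n m x - hatS n m a x) (hms.sub hmh) hBd
  have h1 := h.opt_le (φ := fun x => S n m x - hatS n m a x) (hms.sub hmh) (B := B + B) hBd
    (fun x _ => by rw [hatS_one_sub n m ha.1.le, S_one_sub]; ring) (c := c)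
    ⟨by linarith [hc.1, ha.1], hc.2⟩
    (fun x hx => by
      rcases le_total x a with h5 | h5
      · rw [hat_eq x ⟨hx.1, h5⟩, sub_self]
      · rw [hat_eq' x h5]
        linarith [hc1 x ⟨h5, hx.2⟩])
    (fun x hx => by
      rw [hat_eq' x (by linarith [hx.1, hc.1])]
      linarith [hc2 x hx])
    (by
      rw [← intervalIntegral.integral_add_adjacent_intervals
        (hi (1 / 2) a (by norm_num) ha.1.le ha.2.le) (hi a 1 (by linarith [ha.1]) ha.2.le le_rfl)]
      have e1 : ∫ x in (1 / 2 : ℝ)..a, (S n m x - hatS n m a x) =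
          ∫ x in (1 / 2 : ℝ)..a, (0 : ℝ) := by
        apply intervalIntegral.integral_congr
        intro x hx
        rw [uIcc_of_le ha.1.le] at hx
        dsimp only
        rw [hat_eq x hx, sub_self]
      have e2 : ∫ x in a..1, (S n m x - hatS n m a x) = ∫ x in a..1, (S n m x - S n m a) := by
        apply intervalIntegral.integral_congr
        intro x hx
        rw [uIcc_of_le ha.2.le] at hx
        dsimp only
        rw [hat_eq' x hx.1]
      rw [e1, e2, intervalIntegral.integral_sub
        (intervalIntegrable_S n m hm (by linarith [ha.1]) ha.2.le zero_le_one le_rfl)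
        intervalIntegrable_const, ← ha']
      simp)
  have h2 := h.cs hmh (B := B) (fun x _ => hb x) (V := 2 * W n m a)
    (by have := W_pos n m ha ha0; positivity) (integral_hatS_sq n m hm ha)
  have h3 : ∫ t, (t - mean μ) * (S n m (cdf μ t) - hatS n m a (cdf μ t)) ∂μ =
      (∫ t, (t - mean μ) * S n m (cdf μ t) ∂μ) - ∫ t, (t - mean μ) * hatS n m a (cdf μ t) ∂μ := by
    rw [← integral_sub (h.int_mul hms hB) (h.int_mul hmh (fun x _ => hb x))]
    congr 1
    funext t
    ring
  rw [h3] at h1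
  linarith

theorem upper_one (hn : 1 ≤ n) (hm : 1 ≤ m) (hI : ∫ x in (1 / 2 : ℝ)..1, S n m x ≤ 0)
    {μ : Measure ℝ} (h : SymParent μ) :
    ∫ t, (t - mean μ) * S n m (cdf μ t) ∂μ ≤ 0 := by
  obtain ⟨B, hB⟩ := exists_bound_S n m hm
  obtain ⟨c, hc, hc1, hc2⟩ := pattern_zero n m hn hm hI
  exact h.opt_le (measurable_S n m) hB (fun x _ => S_one_sub n m x) hc hc1 hc2 hI

/-- the value for the law of `g(U)` -/
theorem value_map (hm : 1 ≤ m) {g : ℝ → ℝ} (hgm : Measurable g) (hmono : StrictMonoOn g (Ioo 0 1))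
    {B : ℝ} (hB : ∀ x ∈ Ioo (0 : ℝ) 1, |g x| ≤ B) (hodd : ∀ x ∈ Ioo (0 : ℝ) 1, g (1 - x) = -g x) :
    K n m / 2 * (∫ x in Ioo (0 : ℝ) 1, g x * S n m x) /
      Real.sqrt (∫ x in Ioo (0 : ℝ) 1, g x ^ 2) ∈ stdMeans (m + 1) n := by
  refine ⟨_, symParent_map hgm hmono hB hodd, ?_⟩
  rw [mean_map hgm hodd, sd_map hgm hodd]
  congr 1
  unfold recMean
  rw [intervalIntegral.integral_of_le zero_le_one, integral_Ioc_eq_integral_Ioo,
    quantile_map_integral hgm hmono (measurable_recDens n (m + 1)), sub_zero,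
    integral_odd_mul hgm hodd (measurable_recDens n (m + 1))]
  · rw [← integral_const_mul, ← integral_const_mul]
    congr 1
    funext x
    unfold S
    rw [recDens_eq, recDens_eq]
    ring
  · obtain ⟨B', hB'⟩ := exists_bound_G n m hm
    apply Measure.integrableOn_of_bounded (M := B * (K n m * B')) (by simp)
      (hgm.mul (measurable_recDens n (m + 1))).aestronglyMeasurable
    filter_upwards [ae_restrict_mem measurableSet_Ioo] with x hx
    rw [Real.norm_eq_abs, Pi.mul_apply, abs_mul, recDens_eq, abs_mul, abs_of_pos (K_pos n m)]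
    have h1 := hB x hx
    have h2 := hB' x ⟨hx.1.le, hx.2.le⟩
    have h3 := K_pos n m
    exact mul_le_mul h1 (mul_le_mul_of_nonneg_left h2 h3.le) (by positivity)
      ((abs_nonneg _).trans h1)

theorem isLUB_two (hn : 1 ≤ n) (hm : 1 ≤ m) {a : ℝ} (ha : a ∈ Ioo (1 / 2 : ℝ) 1)
    (ha0 : 0 < S n m a) (ha' : (1 - a) * S n m a = ∫ x in a..1, S n m x) :
    IsLUB (stdMeans (m + 1) n) (K n m / 2 * Real.sqrt (2 * W n m a)) := by
  have hK := K_pos n m
  have hW := W_pos n m ha ha0
  constructor
  · rintro r ⟨μ, h, rfl⟩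
    rw [recMean_sub n m hm h, div_le_iff₀ h.pos]
    have h1 := upper_two n m hn hm ha ha0 ha' h
    calc K n m / 2 * ∫ t, (t - mean μ) * S n m (cdf μ t) ∂μ
        ≤ K n m / 2 * (sd μ * Real.sqrt (2 * W n m a)) :=
          mul_le_mul_of_nonneg_left h1 (by positivity)
      _ = _ := by ring
  · intro b hb
    by_contra hcon
    push Not at hcon
    obtain ⟨B, hB⟩ := exists_bound_S n m hm
    have hbd := hatS_bound n m ha hB
    obtain ⟨hmono, _⟩ := pattern_alpha n m hn hm ha ha0 ha'
    have hms := measurable_S n m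
    have hmh := measurable_hatS n m a
    have hhm := hatS_mono n m ha.1.le hmono
    -- the constants
    obtain ⟨N1, hN1⟩ : ∃ N1, N1 = ∫ x in Ioo (0 : ℝ) 1, (x - 1 / 2) * S n m x := ⟨_, rfl⟩
    obtain ⟨V1, hV1⟩ : ∃ V1, V1 = ∫ x in Ioo (0 : ℝ) 1, hatS n m a x * (x - 1 / 2) := ⟨_, rfl⟩
    obtain ⟨V2, hV2⟩ : ∃ V2, V2 = ∫ x in Ioo (0 : ℝ) 1, (x - 1 / 2) ^ 2 := ⟨_, rfl⟩
    have hl : ∀ x ∈ Icc (0 : ℝ) 1, |x - 1 / 2| ≤ 1 := by
      intro x hx; rw [abs_le]; constructor <;> linarith [hx.1, hx.2]
    have hB0 : 0 ≤ B := (abs_nonneg _).trans (hbd 0)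
    have i1 : IntegrableOn (fun x => hatS n m a x * S n m x) (Ioo 0 1) :=
      ion_of_bound (hmh.mul hms) (B := B * B) (fun x hx => by
        rw [abs_mul]; exact mul_le_mul (hbd x) (hB x hx) (abs_nonneg _) hB0)
    have i2 : IntegrableOn (fun x => (x - 1 / 2) * S n m x) (Ioo 0 1) :=
      ion_of_bound ((measurable_id.sub_const _).mul hms) (B := 1 * B) (fun x hx => by
        rw [abs_mul]; exact mul_le_mul (hl x hx) (hB x hx) (abs_nonneg _) zero_le_one)
    have i3 : IntegrableOn (fun x => hatS n m a x ^ 2) (Ioo 0 1) :=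
      ion_of_bound (hmh.pow_const 2) (B := B ^ 2) (fun x _ => by
        rw [abs_pow]; exact pow_le_pow_left₀ (abs_nonneg _) (hbd x) 2)
    have i4 : IntegrableOn (fun x => hatS n m a x * (x - 1 / 2)) (Ioo 0 1) :=
      ion_of_bound (hmh.mul (measurable_id.sub_const _)) (B := B * 1) (fun x hx => by
        rw [abs_mul]; exact mul_le_mul (hbd x) (hl x hx) (abs_nonneg _) hB0)
    have i5 : IntegrableOn (fun x : ℝ => (x - 1 / 2) ^ 2) (Ioo 0 1) :=
      ion_of_bound (by fun_prop) (B := 1 ^ 2) (fun x hx => by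
        rw [abs_pow]; exact pow_le_pow_left₀ (abs_nonneg _) (hl x hx) 2)
    have hval : ∀ e : ℝ, 0 < e → K n m / 2 * (2 * W n m a + e * N1) /
        Real.sqrt (2 * W n m a + 2 * e * V1 + e ^ 2 * V2) ≤ b := by
      intro e he
      have hg := value_map n m hm (g := fun x => hatS n m a x + e * (x - 1 / 2)) (B := B + e * 1)
        (hmh.add (by fun_prop))
        (by
          intro x _ y _ hxy
          have := hhm hxy.le
          have h5 : e * (x - 1 / 2) < e * (y - 1 / 2) := mul_lt_mul_of_pos_left (by linarith) he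
          dsimp only
          linarith)
        (fun x hx => by
          refine (abs_add_le _ _).trans (add_le_add (hbd x) ?_)
          rw [abs_mul, abs_of_pos he]
          exact mul_le_mul_of_nonneg_left (hl x ⟨hx.1.le, hx.2.le⟩) he.le)
        (fun x _ => by rw [hatS_one_sub n m ha.1.le]; ring)
      have e1 : ∫ x in Ioo (0 : ℝ) 1, (hatS n m a x + e * (x - 1 / 2)) * S n m x =
          2 * W n m a + e * N1 := by
        rw [hN1, ← integral_hatS_mul_S n m hm ha ha', ← integral_const_mul,
          ← integral_add i1 (i2.const_mul e)]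
        congr 1
        funext x
        ring
      have e2 : ∫ x in Ioo (0 : ℝ) 1, (hatS n m a x + e * (x - 1 / 2)) ^ 2 =
          2 * W n m a + 2 * e * V1 + e ^ 2 * V2 := by
        have i6 : IntegrableOn (fun x => hatS n m a x ^ 2 + 2 * e * (hatS n m a x * (x - 1 / 2)))
          (Ioo 0 1) := i3.add (i4.const_mul _)
        rw [hV1, hV2, ← integral_hatS_sq n m hm ha, ← integral_const_mul, ← integral_const_mul,
          ← integral_add i3 (i4.const_mul _), ← integral_add i6 (i5.const_mul _)]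
        congr 1
        funext x
        ring
      rw [e1, e2] at hg
      exact hb hg
    have hlim : Tendsto (fun e : ℝ => K n m / 2 * (2 * W n m a + e * N1) /
        Real.sqrt (2 * W n m a + 2 * e * V1 + e ^ 2 * V2)) (𝓝[>] 0)
        (𝓝 (K n m / 2 * (2 * W n m a + 0 * N1) /
        Real.sqrt (2 * W n m a + 2 * 0 * V1 + 0 ^ 2 * V2))) := by
      apply Tendsto.mono_left _ nhdsWithin_le_nhds
      apply ContinuousAt.tendsto
      apply ContinuousAt.div
      · fun_prop
      · fun_prop
      · have : 0 < 2 * W n m a + 2 * 0 * V1 + 0 ^ 2 * V2 := by simpa using hW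
        exact (Real.sqrt_pos.2 this).ne'
    have h6 := le_of_tendsto hlim (by
      filter_upwards [self_mem_nhdsWithin] with e he
      exact hval e he)
    have h7 : K n m / 2 * (2 * W n m a + 0 * N1) /
        Real.sqrt (2 * W n m a + 2 * 0 * V1 + 0 ^ 2 * V2) =
        K n m / 2 * Real.sqrt (2 * W n m a) := by
      rw [show 2 * W n m a + 2 * 0 * V1 + 0 ^ 2 * V2 = 2 * W n m a by ring,
        show 2 * W n m a + 0 * N1 = 2 * W n m a by ring, mul_div_assoc, Real.div_sqrt]
    rw [h7] at h6
    linarith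

theorem integral_pow_half (p : ℕ) :
    ∫ x in (1 / 2 : ℝ)..1, (2 * x - 1) ^ p = 1 / (2 * (p + 1)) := by
  have hd : ∀ x ∈ uIcc (1 / 2 : ℝ) 1, HasDerivAt (fun x : ℝ => (2 * x - 1) ^ (p + 1) / (2 * (p + 1)))
      ((2 * x - 1) ^ p) x := by
    intro x _
    have := ((((hasDerivAt_id x).const_mul (2 : ℝ)).sub_const 1).fun_pow (p + 1)).div_const
      (2 * ((p : ℝ) + 1))
    refine this.congr_deriv ?_
    have : (p : ℝ) + 1 ≠ 0 := by positivity
    simp only [id_eq, Nat.add_sub_cancel]
    push_cast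
    field_simp
  rw [intervalIntegral.integral_eq_sub_of_hasDerivAt hd
    (Continuous.intervalIntegrable (by fun_prop) _ _)]
  norm_num

theorem isLUB_one (hn : 1 ≤ n) (hm : 1 ≤ m) (hI : ∫ x in (1 / 2 : ℝ)..1, S n m x ≤ 0) :
    IsLUB (stdMeans (m + 1) n) 0 := by
  have hK := K_pos n m
  constructor
  · rintro r ⟨μ, h, rfl⟩
    rw [recMean_sub n m hm h]
    have h1 := upper_one n m hn hm hI h
    apply div_nonpos_of_nonpos_of_nonneg _ h.pos.le
    exact mul_nonpos_of_nonneg_of_nonpos (by positivity) h1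
  · intro b hb
    obtain ⟨B, hB⟩ := exists_bound_S n m hm
    have hB0 : 0 ≤ B := (abs_nonneg _).trans (hB 0 ⟨le_rfl, zero_le_one⟩)
    have hms := measurable_S n m
    have hval : ∀ N : ℕ, -(K n m * B) / Real.sqrt (4 * N + 3) ≤ b := by
      intro N
      have hodd : Odd (2 * N + 1) := ⟨N, rfl⟩
      have hle : ∀ x ∈ Icc (0 : ℝ) 1, |(2 * x - 1) ^ (2 * N + 1)| ≤ 1 := by
        intro x hx
        rw [abs_pow]
        apply pow_le_one₀ (abs_nonneg _)
        rw [abs_le]; constructor <;> linarith [hx.1, hx.2]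
      have hg := value_map n m hm (g := fun x => (2 * x - 1) ^ (2 * N + 1)) (B := 1)
        (by fun_prop)
        (by
          intro x _ y _ hxy
          exact hodd.strictMono_pow (by linarith))
        (fun x hx => hle x ⟨hx.1.le, hx.2.le⟩)
        (fun x _ => by
          rw [show 2 * (1 - x) - 1 = -(2 * x - 1) by ring, hodd.neg_pow])
      refine le_trans ?_ (hb hg)
      have e2 : ∫ x in Ioo (0 : ℝ) 1, ((2 * x - 1) ^ (2 * N + 1)) ^ 2 = 1 / (4 * (N : ℝ) + 3) := by
        rw [even_integral]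
        · have : ∀ x : ℝ, ((2 * x - 1) ^ (2 * N + 1)) ^ 2 = (2 * x - 1) ^ (4 * N + 2) := by
            intro x; rw [← pow_mul]; congr 1; ring
          simp only [this]
          rw [integral_pow_half]
          push_cast
          field_simp
          ring
        · intro x _
          rw [show 2 * (1 - x) - 1 = -(2 * x - 1) by ring, hodd.neg_pow]
          ring
        · intro a b _ _ _
          exact Continuous.intervalIntegrable (by fun_prop) _ _
      have hi := ii_of_bound (q := fun x => (2 * x - 1) ^ (2 * N + 1) * S n m x)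
        ((by fun_prop : Measurable fun x : ℝ => (2 * x - 1) ^ (2 * N + 1)).mul hms) (B := 1 * B)
        (fun x hx => by
          rw [abs_mul]; exact mul_le_mul (hle x hx) (hB x hx) (abs_nonneg _) zero_le_one)
      have e1 : -(B / (2 * N + 2)) ≤
          ∫ x in Ioo (0 : ℝ) 1, (2 * x - 1) ^ (2 * N + 1) * S n m x := by
        rw [even_integral _ hi]
        · have h5 : ∫ x in (1 / 2 : ℝ)..1, -B * (2 * x - 1) ^ (2 * N + 1) ≤
              ∫ x in (1 / 2 : ℝ)..1, (2 * x - 1) ^ (2 * N + 1) * S n m x := by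
            apply intervalIntegral.integral_mono_on (by norm_num)
              (Continuous.intervalIntegrable (by fun_prop) _ _)
              (hi _ _ (by norm_num) (by norm_num) le_rfl)
            intro x hx
            have h6 : 0 ≤ (2 * x - 1) ^ (2 * N + 1) := pow_nonneg (by linarith [hx.1]) _
            have h7 := (abs_le.1 (hB x ⟨by linarith [hx.1], hx.2⟩)).1
            have := mul_le_mul_of_nonneg_left h7 h6
            linarith
          rw [intervalIntegral.integral_const_mul, integral_pow_half] at h5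
          have h8 : -B * (1 / (2 * (((2 * N + 1 : ℕ) : ℝ) + 1))) = -(B / (2 * N + 2)) / 2 := by
            push_cast
            field_simp
            ring
          rw [h8] at h5
          linarith
        · intro x _
          rw [show 2 * (1 - x) - 1 = -(2 * x - 1) by ring, hodd.neg_pow, S_one_sub]
          ring
      rw [e2]
      have hp : (0 : ℝ) < 4 * N + 3 := by positivity
      rw [one_div, Real.sqrt_inv, div_inv_eq_mul]
      have hs := Real.sqrt_pos.2 hp
      have hs2 := Real.mul_self_sqrt hp.le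
      generalize Real.sqrt (4 * (N : ℝ) + 3) = σ at *
      have h9 : K n m / 2 * -(B / (2 * N + 2)) * σ ≤
          K n m / 2 * (∫ x in Ioo (0 : ℝ) 1, (2 * x - 1) ^ (2 * N + 1) * S n m x) * σ := by
        gcongr
      refine le_trans ?_ h9
      rw [div_le_iff₀ hs]
      have h10 : K n m / 2 * -(B / (2 * N + 2)) * σ * σ = -(K n m * B) * ((σ * σ) / (4 * N + 4)) := by
        field_simp
        ring
      rw [h10, hs2]
      have h11 : (4 * (N : ℝ) + 3) / (4 * N + 4) ≤ 1 := by
        rw [div_le_one (by positivity)]; linarith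
      have h12 : 0 ≤ K n m * B := by positivity
      nlinarith
    have hlim : Tendsto (fun N : ℕ => -(K n m * B) / Real.sqrt (4 * N + 3)) atTop (𝓝 0) := by
      apply Tendsto.div_atTop tendsto_const_nhds
      apply Real.tendsto_sqrt_atTop.comp
      apply tendsto_atTop_add_const_right
      exact tendsto_natCast_atTop_atTop.const_mul_atTop (by norm_num)
    exact le_of_tendsto' hlim hval

end Pool.Agent.R190.KR
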