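import Mathlib
import Pool.Agent.R190.KR.Final

set_option autoImplicit false

namespace Pool.Agent.R190.KR

open MeasureTheory ProbabilityTheory Set Filter Topology

variable (n m : ℕ)

theorem isCut_iff (hm : 1 ≤ m) (a : ℝ) : IsCut (m + 1) n a ↔
    a ∈ Ioo (1 / 2 : ℝ) 1 ∧ 0 < S n m a ∧ (1 - a) * S n m a = ∫ x in a..1, S n m x := by
  have hK := K_pos n m
  unfold IsCut
  rw [sfun_eq, recTail_eq, recTail_eq]
  constructor
  · rintro ⟨h1, h2, h3, h4⟩
    rw [← integral_S' n m hm (by linarith) h2.le] at h4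
    refine ⟨⟨h1, h2⟩, (mul_pos_iff_of_pos_left hK).1 h3, ?_⟩
    have : K n m * ((1 - a) * S n m a - ∫ x in a..1, S n m x) = 0 := by linarith
    rcases mul_eq_zero.1 this with h | h
    · exact absurd h hK.ne'
    · linarith
  · rintro ⟨⟨h1, h2⟩, h3, h4⟩
    rw [← integral_S' n m hm (by linarith) h2.le, ← h4]
    exact ⟨h1, h2, mul_pos hK h3, by ring⟩

theorem K_mul_integral_half (hm : 1 ≤ m) : K n m * ∫ x in (1 / 2 : ℝ)..1, S n m x =
    (∑ j ∈ Finset.range (n + 1), (((m + 1 : ℕ) : ℝ) * Real.log 2) ^ j / j.factorial) / 2 ^ m - 1 := by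
  rw [integral_S' n m hm (by norm_num) (by norm_num), show (1 : ℝ) - 1 / 2 = 1 / 2 by norm_num]
  unfold T
  rw [A_half, show (1 : ℝ) - 1 / 2 = 1 / 2 by norm_num]
  push_cast
  rw [pow_succ, one_div, inv_pow]
  field_simp
  ring

theorem value_eq (a : ℝ) : K n m / 2 * Real.sqrt (2 * W n m a) =
    Real.sqrt (1 / 2 * ((∫ x in (1 / 2 : ℝ)..a, sfun (m + 1) n x ^ 2) +
      (1 - a) * sfun (m + 1) n a ^ 2)) := by
  have hK := K_pos n m
  have e1 : ∀ x, sfun (m + 1) n x ^ 2 = K n m ^ 2 * S n m x ^ 2 := by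
    intro x; rw [sfun_eq]; ring
  simp only [e1]
  rw [intervalIntegral.integral_const_mul]
  have e2 : 1 / 2 * (K n m ^ 2 * (∫ x in (1 / 2 : ℝ)..a, S n m x ^ 2) +
      (1 - a) * (K n m ^ 2 * S n m a ^ 2)) = (K n m / 2) ^ 2 * (2 * W n m a) := by
    unfold W; ring
  rw [e2, Real.sqrt_mul (sq_nonneg (K n m / 2)) (2 * W n m a), Real.sqrt_sq (by positivity)]

theorem main (k n : ℕ) (hk : 2 ≤ k) (hn : 1 ≤ n) :
    (∑ j ∈ Finset.range (n + 1), (k * Real.log 2) ^ j / j.factorial ≤ (2 : ℝ) ^ (k - 1) →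
      IsLUB (stdMeans k n) 0) ∧
    ((2 : ℝ) ^ (k - 1) < ∑ j ∈ Finset.range (n + 1), (k * Real.log 2) ^ j / j.factorial →
      ∃ α : ℝ, IsCut k n α ∧ (∀ β, IsCut k n β → β = α) ∧
        IsLUB (stdMeans k n) (Real.sqrt (1 / 2 * ((∫ x in (1 / 2 : ℝ)..α, sfun k n x ^ 2) +
          (1 - α) * sfun k n α ^ 2)))) := by
  obtain ⟨m, rfl⟩ : ∃ m, k = m + 1 := ⟨k - 1, by omega⟩
  have hm : 1 ≤ m := by omega
  have hK := K_pos n m
  have h2 : (0 : ℝ) < 2 ^ m := by positivity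
  have hkey := K_mul_integral_half n m hm
  rw [Nat.add_sub_cancel]
  constructor
  · intro h
    apply isLUB_one n m hn hm
    rw [← div_le_one h2] at h
    by_contra hcon
    push Not at hcon
    have := mul_pos hK hcon
    linarith
  · intro h
    rw [← one_lt_div h2] at h
    have hI : 0 < ∫ x in (1 / 2 : ℝ)..1, S n m x := by
      by_contra hcon
      push Not at hcon
      have := mul_nonpos_of_nonneg_of_nonpos hK.le hcon
      linarith
    obtain ⟨a, ha, ha0, ha'⟩ := exists_alpha n m hn hm hI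
    refine ⟨a, (isCut_iff n m hm a).2 ⟨ha, ha0, ha'⟩, ?_, ?_⟩
    · intro b hb
      obtain ⟨h5, h6, h7⟩ := (isCut_iff n m hm b).1 hb
      exact unique_alpha n m hn hm h5 ha h6 ha0 h7 ha'
    · rw [← value_eq]
      exact isLUB_two n m hn hm ha ha0 ha'

end Pool.Agent.R190.KR
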